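import Mathlib

namespace Pool.Agent.P.MP_a6f615_lc

open MvPolynomial

/-- Monomial space: the number of distinct monomials occurring in the polynomials of `S`. -/
noncomputable def monSpace {V F : Type} [Field F] (S : Finset (MvPolynomial V F)) : ℕ :=
  (⋃ q ∈ S, (q.support : Set (V →₀ ℕ))).ncard

/-- One step of a semantic refutation: `M' ⊆ ⟨M⟩ + I + ⟨p⟩` for some `p ∈ P`,
where `I` is the Boolean ideal generated by all `x ^ 2 - x`. -/
def SemStep {V F : Type} [Field F] (P : Set (MvPolynomial V F))
    (M M' : Finset (MvPolynomial V F)) : Prop :=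
  ∃ p ∈ P, ∀ q ∈ M', q ∈ Ideal.span (M : Set (MvPolynomial V F)) +
    Ideal.span (Set.range fun x : V => (X x ^ 2 - X x : MvPolynomial V F)) + Ideal.span {p}

/-- One step of an ordinary (syntactic) configuration-style refutation: erase polynomials, or add
one polynomial that is in `P`, is some `x ^ 2 - x`, is a linear combination of two polynomials in
memory, or is a variable times a polynomial in memory. -/
def SynStep {V F : Type} [Field F] (P : Set (MvPolynomial V F))
    (M M' : Finset (MvPolynomial V F)) : Prop :=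
  M' ⊆ M ∨ ∃ q : MvPolynomial V F, (M' : Set (MvPolynomial V F)) = insert q (M : Set _) ∧
    (q ∈ P ∨ (∃ x : V, q = X x ^ 2 - X x) ∨
      (∃ p₁ ∈ M, ∃ p₂ ∈ M, ∃ a b : F, q = C a * p₁ + C b * p₂) ∨
      (∃ p ∈ M, ∃ x : V, q = X x * p))

/-- `P` has a polynomial calculus refutation `L 0, …, L ℓ = 1` all of whose lines have degree
at most `D`. -/
def HasPCRefutation {V F : Type} [Field F] (P : Set (MvPolynomial V F)) (D : ℕ) : Prop :=
  ∃ (ℓ : ℕ) (L : ℕ → MvPolynomial V F), L ℓ = 1 ∧ ∀ i ≤ ℓ, (L i).totalDegree ≤ D ∧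
    (L i ∈ P ∨ (∃ x : V, L i = X x ^ 2 - X x) ∨
      (∃ j < i, ∃ k < i, ∃ a b : F, L i = C a * L j + C b * L k) ∨
      (∃ j < i, ∃ x : V, L i = X x * L j))

/-- The usual polynomial of a clause: the product of `1 - x` over its positive literals
`(x, true)` and of `x` over its negative literals `(x, false)`. -/
noncomputable def clausePoly {V : Type} (F : Type) [Field F] (c : Finset (V × Bool)) :
    MvPolynomial V F :=
  ∏ l ∈ c, if l.2 = true then 1 - X l.1 else X l.1

end Pool.Agent.P.MP_a6f615_lc
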