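import Pool.Agent.P.MP_a6f615_lc.Weights

namespace Pool.Agent.P.MP_a6f615_lc

open MvPolynomial
open Classical

variable {W : Type} {t : ℕ} {F : Type} [Field F]

/-- the intended meaning of each variable as a function of the witness pattern -/
noncomputable def gen (F : Type) [Field F] (G : PG W) : Var W t → (W → Fin t → Bool) → F
  | Sum.inl (v, j), β => if β v j = true then 0 else 1
  | Sum.inr (v, i, i', j), β =>
      if (G.src v ∨ (β (G.p1 v) i = true ∧ β (G.p2 v) i' = true)) ∧
        ∀ l : Fin t, l.val < j.val → β v l = false then 1 else 0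

variable {G : PG W}

lemma gen_01 (x : Var W t) (β : W → Fin t → Bool) : gen F G x β = 0 ∨ gen F G x β = 1 := by
  rcases x with ⟨v, j⟩ | ⟨v, i, i', j⟩ <;> simp only [gen] <;> split_ifs <;> simp

lemma gen_sq (x : Var W t) (β : W → Fin t → Bool) : gen F G x β * gen F G x β = gen F G x β := by
  rcases gen_01 (F := F) (G := G) x β with h | h <;> simp [h]

lemma gen_pow (x : Var W t) (β : W → Fin t → Bool) {n : ℕ} (hn : n ≠ 0) :
    gen F G x β ^ n = gen F G x β := by
  rcases gen_01 (F := F) (G := G) x β with h | h <;> simp [h, hn]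

noncomputable def termF (F : Type) [Field F] (G : PG W) (S : Finset (Var W t)) :
    (W → Fin t → Bool) → F := fun β => ∏ x ∈ S, gen F G x β

noncomputable def hat (G : PG W) (q : MvPolynomial (Var W t) F) : (W → Fin t → Bool) → F :=
  fun β => eval (fun x => gen F G x β) q

lemma gen_mul_termF (x : Var W t) (S : Finset (Var W t)) :
    gen F G x * termF F G S = termF F G (insert x S) := by
  funext β
  by_cases h : x ∈ S
  · rw [Finset.insert_eq_of_mem h, Pi.mul_apply, termF, ← Finset.mul_prod_erase _ _ h,
      ← mul_assoc, gen_sq]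
  · simp [termF, Finset.prod_insert h]

lemma hat_eq (q : MvPolynomial (Var W t) F) :
    hat G q = ∑ m ∈ q.support, coeff m q • termF F G m.support := by
  funext β
  simp only [hat, eval_eq, Finset.sum_apply, Pi.smul_apply, smul_eq_mul, termF]
  refine Finset.sum_congr rfl fun m _ => ?_
  congr 1
  exact Finset.prod_congr rfl fun x hx => gen_pow x β (Finsupp.mem_support_iff.1 hx)

lemma lin_vanish {D : ℕ} (Φ : ((W → Fin t → Bool) → F) →ₗ[F] F)
    (h : ∀ S : Finset (Var W t), S.card ≤ D → Φ (termF F G S) = 0)
    {q : MvPolynomial (Var W t) F} (hq : q.totalDegree ≤ D) : Φ (hat G q) = 0 := by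
  rw [hat_eq, map_sum]
  refine Finset.sum_eq_zero fun m hm => ?_
  rw [map_smul, h, smul_zero]
  refine le_trans ?_ ((le_totalDegree hm).trans hq)
  rw [Finset.card_eq_sum_ones]
  exact Finset.sum_le_sum fun x hx => Nat.one_le_iff_ne_zero.2 (Finsupp.mem_support_iff.1 hx)

/-- blocks touched by a variable -/
noncomputable def tch (G : PG W) : Var W t → Finset W
  | Sum.inl (v, _) => {v}
  | Sum.inr (v, _, _, _) => {v, G.p1 v, G.p2 v}

lemma card_tch (x : Var W t) : (tch G x).card ≤ 3 := by
  rcases x with ⟨v, j⟩ | ⟨v, i, i', j⟩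
  · simp [tch]
  · exact Finset.card_le_three

lemma gen_congr (x : Var W t) {β β' : W → Fin t → Bool} (h : ∀ v ∈ tch G x, β v = β' v) :
    gen F G x β = gen F G x β' := by
  rcases x with ⟨v, j⟩ | ⟨v, i, i', j⟩
  · simp only [gen, h v (by simp [tch])]
  · simp only [gen, h v (by simp [tch]), h (G.p1 v) (by simp [tch]), h (G.p2 v) (by simp [tch])]

/-- coordinates read by a variable outside its own block -/
noncomputable def crd : Var W t → Finset (Fin t)
  | Sum.inl (_, j) => {j}
  | Sum.inr (_, i, i', _) => {i, i'}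

lemma card_crd (x : Var W t) : (crd x).card ≤ 2 := by
  rcases x with ⟨v, j⟩ | ⟨v, i, i', j⟩
  · simp [crd]
  · exact Finset.card_le_two

lemma upd_flp_apply (β : W → Fin t → Bool) (w v : W) {j j' : Fin t} (h : j ≠ j') :
    Function.update β w (flp (β w) j') v j = β v j := by
  by_cases hv : v = w
  · subst hv; simp [flp, Function.update_of_ne h]
  · rw [Function.update_of_ne hv]

lemma gen_flp (x : Var W t) (β : W → Fin t → Bool) (w : W) {j' : Fin t} (hj : j' ∉ crd x)
    (hx : ∀ i i' j, x ≠ Sum.inr (w, i, i', j)) :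
    gen F G x (Function.update β w (flp (β w) j')) = gen F G x β := by
  rcases x with ⟨v, j⟩ | ⟨v, i, i', j⟩
  · simp only [crd, Finset.mem_singleton] at hj
    simp only [gen, upd_flp_apply β w v (Ne.symm hj)]
  · simp only [crd, Finset.mem_insert, Finset.mem_singleton, not_or] at hj
    have hv : v ≠ w := fun e => hx i i' j (by rw [e])
    simp only [gen, upd_flp_apply β w _ (Ne.symm hj.1), upd_flp_apply β w _ (Ne.symm hj.2),
      Function.update_of_ne hv]

variable [Fintype W]

def Marked (f : (W → Fin t → Bool) → F) (w : W) : Prop := ∃ i, ∀ β, β w i = false → f β = 0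

lemma vanish_unless_ext (z : W → Option (Fin t → Bool)) (h0 : Bool → F) (v0 : W) (j0 : Fin t)
    (S : Finset (Var W t)) (hS : 2 * S.card + 1 < t) {w : W} (hw : z w = none)
    (hm : Marked (fun β => h0 (β v0 j0) * termF F G S β) w)
    (hE : ∀ i i' j, Sum.inr (w, i, i', j) ∉ S) :
    LL z (fun β => h0 (β v0 j0) * termF F G S β) = 0 := by
  have hc : (insert j0 (S.biUnion crd)).card < (Finset.univ : Finset (Fin t)).card := by
    have h1 := Finset.card_insert_le j0 (S.biUnion crd)
    have h2 : (S.biUnion crd).card ≤ S.card * 2 :=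
      Finset.card_biUnion_le_card_mul _ _ _ fun x _ => card_crd x
    simp only [Finset.card_univ, Fintype.card_fin]
    omega
  obtain ⟨j', _, hj'⟩ := Finset.exists_mem_notMem_of_card_lt_card hc
  rw [Finset.mem_insert, not_or, Finset.mem_biUnion] at hj'
  refine LL_vanish z hw j' _ (fun β => ?_) (fun β hβ => ?_)
  · rw [upd_flp_apply β w v0 (Ne.symm hj'.1)]
    congr 1
    refine Finset.prod_congr rfl fun x hx => gen_flp x β w (fun h => hj'.2 ⟨x, hx, h⟩) ?_
    rintro i i' j rfl
    exact hE i i' j hx
  · obtain ⟨i, hi⟩ := hm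
    exact hi β (by rw [hβ]; rfl)

def Anc (G : PG W) (z : W → Option (Fin t → Bool)) (a b : W) : Prop :=
  z a = none ∧ ¬ G.src a ∧ (b = G.p1 a ∨ b = G.p2 a)

/-- unpebbled ancestors of the demanded vertices -/
noncomputable def NN (G : PG W) (z : W → Option (Fin t → Bool)) (Dem : Finset W) : Finset W :=
  Finset.univ.filter fun w => z w = none ∧ ∃ d ∈ Dem, Relation.ReflTransGen (Anc G z) d w

lemma large_case (z : W → Option (Fin t → Bool)) (h0 : Bool → F) (v0 : W) (j0 : Fin t)
    (S : Finset (Var W t)) (hS : 2 * S.card + 1 < t) (Dem : Finset W)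
    (hD : ∀ d ∈ Dem, Marked (fun β => h0 (β v0 j0) * termF F G S β) d)
    (hN : S.card < (NN G z Dem).card) :
    LL z (fun β => h0 (β v0 j0) * termF F G S β) = 0 := by
  by_contra hne
  have ext : ∀ w, z w = none → Marked (fun β => h0 (β v0 j0) * termF F G S β) w →
      ∃ i i' j, Sum.inr (w, i, i', j) ∈ S := by
    intro w hw hm
    by_contra hc
    push Not at hc
    exact hne (vanish_unless_ext z h0 v0 j0 S hS hw hm hc)
  have mk : ∀ d ∈ Dem, ∀ w, Relation.ReflTransGen (Anc G z) d w →
      Marked (fun β => h0 (β v0 j0) * termF F G S β) w := by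
    intro d hd w h
    induction h with
    | refl => exact hD d hd
    | @tail a b _ hab ih =>
      obtain ⟨i, i', j, hx⟩ := ext a hab.1 ih
      rcases hab.2.2 with rfl | rfl
      · refine ⟨i, fun β hβ => ?_⟩
        simp only [termF]
        rw [Finset.prod_eq_zero hx (by simp [gen, hab.2.1, hβ]), mul_zero]
      · refine ⟨i', fun β hβ => ?_⟩
        simp only [termF]
        rw [Finset.prod_eq_zero hx (by simp [gen, hab.2.1, hβ]), mul_zero]
  have : NN G z Dem ⊆ S.image (Sum.elim (fun a => a.1) (fun a => a.1)) := by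
    intro w hw
    obtain ⟨h1, d, hd, h2⟩ := (Finset.mem_filter.1 hw).2
    obtain ⟨i, i', j, hx⟩ := ext w h1 (mk d hd w h2)
    exact Finset.mem_image.2 ⟨_, hx, rfl⟩
  have := (Finset.card_le_card this).trans Finset.card_image_le
  omega

def Legal (G : PG W) (K : ℕ) (z : W → Option (Fin t → Bool)) : Prop :=
  (∀ v τ, z v = some τ → τ ≠ ff t) ∧ Peb G K (dom z)

lemma mem_dom {z : W → Option (Fin t → Bool)} {v : W} : v ∈ dom z ↔ z v ≠ none := by simp [dom]

lemma small_case {K r n : ℕ} {z : W → Option (Fin t → Bool)} (hz : Legal G K z)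
    (hr : (dom z).card ≤ r) (Dem : Finset W) (v0 : W) (hN : (NN G z Dem).card ≤ n)
    (hK : r + n + 1 ≤ K) (hv0 : v0 ∈ Dem ∨ G.src v0 ∨ (G.p1 v0 ∈ Dem ∧ G.p2 v0 ∈ Dem))
    (h f : (W → Fin t → Bool) → F)
    (hh : ∀ β β' : W → Fin t → Bool, (∀ v ∈ insert v0 Dem, β v = β' v) → h β = h β')
    (hf : ∀ z' : W → Option (Fin t → Bool), Legal G K z' → LL z' f = 0) :
    LL z (h * f) = 0 := by
  set N' := (insert v0 (NN G z Dem)).filter fun w => z w = none with hN'
  have hDem : ∀ d ∈ Dem, d ∈ dom z ∪ N' := by
    intro d hd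
    by_cases hzd : z d = none
    · refine Finset.mem_union_right _ (Finset.mem_filter.2 ⟨Finset.mem_insert_of_mem ?_, hzd⟩)
      exact Finset.mem_filter.2 ⟨Finset.mem_univ _, hzd, d, hd, Relation.ReflTransGen.refl⟩
    · exact Finset.mem_union_left _ (mem_dom.2 hzd)
  have hv : v0 ∈ dom z ∪ N' := by
    by_cases hzd : z v0 = none
    · exact Finset.mem_union_right _ (Finset.mem_filter.2 ⟨Finset.mem_insert_self _ _, hzd⟩)
    · exact Finset.mem_union_left _ (mem_dom.2 hzd)
  have hNN : ∀ w ∈ NN G z Dem, G.src w ∨ (G.p1 w ∈ dom z ∪ N' ∧ G.p2 w ∈ dom z ∪ N') := by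
    intro w hw
    obtain ⟨h1, d, hd, h2⟩ := (Finset.mem_filter.1 hw).2
    by_cases hs : G.src w
    · exact Or.inl hs
    have key : ∀ b, (b = G.p1 w ∨ b = G.p2 w) → b ∈ dom z ∪ N' := by
      intro b hb
      by_cases hzb : z b = none
      · refine Finset.mem_union_right _ (Finset.mem_filter.2 ⟨Finset.mem_insert_of_mem ?_, hzb⟩)
        exact Finset.mem_filter.2 ⟨Finset.mem_univ _, hzb, d, hd,
          Relation.ReflTransGen.tail h2 ⟨h1, hs, hb⟩⟩
      · exact Finset.mem_union_left _ (mem_dom.2 hzb)
    exact Or.inr ⟨key _ (Or.inl rfl), key _ (Or.inr rfl)⟩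
  have hpeb : Peb G K (dom z ∪ N') := by
    refine hz.2.closure (fun w hw => ?_) ?_
    · rcases Finset.mem_union.1 hw with hw | hw
      · exact Or.inl hw
      · right
        obtain ⟨h1, h2⟩ := Finset.mem_filter.1 hw
        rcases Finset.mem_insert.1 h1 with rfl | h1
        · rcases hv0 with h3 | h3 | h3
          · exact hNN _ (Finset.mem_filter.2
              ⟨Finset.mem_univ _, h2, w, h3, Relation.ReflTransGen.refl⟩)
          · exact Or.inl h3
          · exact Or.inr ⟨hDem _ h3.1, hDem _ h3.2⟩
        · exact hNN _ h1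
    · have h1 := Finset.card_union_le (dom z) N'
      have h2 : N'.card ≤ (insert v0 (NN G z Dem)).card := Finset.card_filter_le _ _
      have h3 := Finset.card_insert_le v0 (NN G z Dem)
      omega
  refine LL_expand_all _ N' z (fun w hw => (Finset.mem_filter.1 hw).2) fun z' h1 h2 => ?_
  have hdom : ∀ w, w ∈ dom z' ↔ w ∈ dom z ∪ N' := by
    intro w
    rw [Finset.mem_union, mem_dom, mem_dom]
    by_cases hw : w ∈ N'
    · obtain ⟨τ, _, e⟩ := h2 w hw
      simp [hw, e]
    · simp [hw, h1 w hw]
  have hleg : Legal G K z' := by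
    refine ⟨fun v τ e => ?_, hpeb.subset fun w hw => (hdom w).1 hw⟩
    by_cases hw : v ∈ N'
    · obtain ⟨τ', h3, e'⟩ := h2 v hw
      rw [e] at e'
      rw [Option.some.inj e']; exact h3
    · exact hz.1 v τ (by rw [← h1 v hw, e])
  rw [LL_pinned z' h f (h fun v => (z' v).getD (ff t)), hf z' hleg, mul_zero]
  intro β hβ
  refine hh _ _ fun v hv' => ?_
  have : v ∈ dom z' := by
    rw [hdom]
    rcases Finset.mem_insert.1 hv' with rfl | hv'
    · exact hv
    · exact hDem v hv'
  obtain ⟨τ, e⟩ := Option.ne_none_iff_exists'.1 (mem_dom.1 this)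
  rw [hβ v τ e, e]; rfl

lemma reduce {K D : ℕ} (ht : 0 < t) (x : Var W t) {q : MvPolynomial (Var W t) F}
    (hq : q.totalDegree ≤ D)
    (hsmall : ∀ z : W → Option (Fin t → Bool), Legal G K z → (dom z).card ≤ 3 * (D + 1) →
      LL z (gen F G x * hat G q) = 0) :
    ∀ z : W → Option (Fin t → Bool), Legal G K z → LL z (gen F G x * hat G q) = 0 := by
  intro z
  induction hn : (dom z).card using Nat.strong_induction_on generalizing z with
  | _ n ih =>
    intro hz
    by_cases hc : (dom z).card ≤ 3 * (D + 1)
    · exact hsmall z hz hc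
    have alt : ∑ A ∈ (dom z).powerset, (-1 : F) ^ A.card * LL (restr z A) (gen F G x * hat G q)
        = 0 := by
      have := lin_vanish (G := G) (D := D)
        (∑ A ∈ (dom z).powerset, (-1 : F) ^ A.card •
          (LL (restr z A)).comp (LinearMap.mulLeft F (gen F G x))) ?_ hq
      · simpa using this
      · intro S hS
        have hT : ((insert x S).biUnion (tch G)).card < (dom z).card := by
          have h1 : ((insert x S).biUnion (tch G)).card ≤ (insert x S).card * 3 :=
            Finset.card_biUnion_le_card_mul _ _ _ fun y _ => card_tch y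
          have h2 := Finset.card_insert_le x S
          omega
        obtain ⟨w, hw, hw'⟩ := Finset.exists_mem_notMem_of_card_lt_card hT
        have := alt_sum_zero ht z (dom z) hw (termF F G (insert x S)) (fun β σ => by
          refine Finset.prod_congr rfl fun y hy => gen_congr y fun v hv => ?_
          rw [Function.update_of_ne]
          rintro rfl
          exact hw' (Finset.mem_biUnion.2 ⟨y, hy, hv⟩))
        simpa [gen_mul_termF] using this
    rw [Finset.sum_eq_single (dom z)] at alt
    · have e : restr z (dom z) = z := by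
        funext v
        by_cases h : z v = none <;> simp [restr, mem_dom, h]
      rw [e] at alt
      simpa using alt
    · intro A hA hne
      have hsub : dom (restr z A) ⊆ A := by
        intro v hv
        by_contra h
        exact mem_dom.1 hv (by simp [restr, h])
      have hA' := Finset.mem_powerset.1 hA
      have hlt : (dom (restr z A)).card < n :=
        hn ▸ (Finset.card_le_card hsub).trans_lt
          (Finset.card_lt_card (Finset.ssubset_iff_subset_ne.2 ⟨hA', hne⟩))
      rw [ih _ hlt (restr z A) rfl, mul_zero]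
      refine ⟨fun v τ e => hz.1 v τ ?_, hz.2.subset (hsub.trans hA')⟩
      by_cases h : v ∈ A
      · simpa [restr, h] using e
      · simp [restr, h] at e
    · intro h; exact absurd (Finset.mem_powerset_self _) h

lemma closure_step {K D : ℕ} (ht : 2 * D + 3 < t) (hK : 4 * D + 5 ≤ K) (x : Var W t)
    {q : MvPolynomial (Var W t) F} (hq : q.totalDegree ≤ D)
    (hg : ∀ z : W → Option (Fin t → Bool), Legal G K z → LL z (hat G q) = 0) :
    ∀ z : W → Option (Fin t → Bool), Legal G K z → LL z (gen F G x * hat G q) = 0 := by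
  refine reduce (by omega) x hq fun z hz hr => ?_
  rcases x with ⟨v, j⟩ | ⟨v, i, i', j⟩
  · set h : (W → Fin t → Bool) → F := fun β => if β v j = true then 1 else 0 with hh
    have e : gen F G (Sum.inl (v, j)) * hat G q = hat G q - h * hat G q := by
      funext β
      simp only [gen, hh, Pi.mul_apply, Pi.sub_apply]
      split_ifs <;> simp
    rw [e, map_sub, hg z hz, zero_sub, neg_eq_zero]
    by_cases hN : (NN G z {v}).card ≤ D + 1
    · refine small_case hz hr {v} v hN (by omega) (Or.inl (by simp)) h _ ?_ hg
      intro β β' hβ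
      simp only [hh, hβ v (by simp)]
    · refine lin_vanish (G := G) (D := D) ((LL z).comp (LinearMap.mulLeft F h)) ?_ hq
      intro S hS
      refine large_case z (fun b => if b = true then 1 else 0) v j S (by omega) {v} ?_ (by omega)
      intro d hd
      rw [Finset.mem_singleton.1 hd]
      exact ⟨j, fun β hβ => by simp [hβ]⟩
  · set Dem : Finset W := if G.src v then ∅ else {G.p1 v, G.p2 v} with hDem
    by_cases hN : (NN G z Dem).card ≤ D + 1
    · refine small_case hz hr Dem v hN (by omega) ?_ _ _ ?_ hg
      · by_cases hs : G.src v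
        · exact Or.inr (Or.inl hs)
        · exact Or.inr (Or.inr (by simp [hDem, hs]))
      · intro β β' hβ
        by_cases hs : G.src v
        · simp only [gen, hs, true_or, hβ v (by simp)]
        · exact gen_congr _ fun w hw => hβ w (by simpa [tch, hDem, hs] using hw)
    · refine lin_vanish (G := G) (D := D)
        ((LL z).comp (LinearMap.mulLeft F (gen F G (Sum.inr (v, i, i', j))))) ?_ hq
      intro S hS
      have h2 := Finset.card_insert_le (Sum.inr (v, i, i', j)) S
      have := large_case (F := F) (G := G) z (fun _ => 1) v i (insert (Sum.inr (v, i, i', j)) S)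
        (by omega) Dem ?_ (by omega)
      · simpa [gen_mul_termF] using this
      · intro d hd
        by_cases hs : G.src v
        · simp [hDem, hs] at hd
        · simp only [hDem, hs, if_false, Finset.mem_insert, Finset.mem_singleton] at hd
          rcases hd with rfl | rfl
          · refine ⟨i, fun β hβ => ?_⟩
            simp only [termF]
            rw [Finset.prod_eq_zero (Finset.mem_insert_self _ _) (by simp [gen, hs, hβ]), mul_zero]
          · refine ⟨i', fun β hβ => ?_⟩
            simp only [termF]
            rw [Finset.prod_eq_zero (Finset.mem_insert_self _ _) (by simp [gen, hs, hβ]), mul_zero]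

lemma axioms_ok {K : ℕ} (ht : 3 < t) (hs : ∀ A, Peb G K A → G.sink ∉ A)
    {p : MvPolynomial (Var W t) F} (hp : p ∈ PP F G t) (z : W → Option (Fin t → Bool))
    (hz : Legal G K z) : LL z (hat G p) = 0 := by
  rcases mem_PP.1 hp with ⟨v, i, i', rfl⟩ | ⟨v, i, i', j, rfl⟩ | ⟨v, i, i', rfl⟩ | ⟨j, rfl⟩
  · have : hat G (prem F G v i i' * (1 - X (ev v i i' 0))) = 0 := by
      funext β
      by_cases h : G.src v
      · simp [hat, prem, h, gen, ev]
      · cases h1 : β (G.p1 v) i <;> cases h2 : β (G.p2 v) i' <;>
          simp [hat, prem, h, gen, ev, h1, h2]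
    rw [this, map_zero]
  · have : hat G (X (ev v i i' j) * X (yv v j) * (1 - X (ev v i i' (j + 1))) :
        MvPolynomial (Var W t) F) = 0 := by
      funext β
      have e1 : min (j : ℕ) t = j := by have := j.2; omega
      have e2 : min ((j : ℕ) + 1) t = j + 1 := by have := j.2; omega
      simp only [hat, map_mul, map_sub, map_one, eval_X, gen, ev, e1, e2, Pi.zero_apply]
      split_ifs with h1 h2 h3 h4 <;> try simp
      refine h4 ⟨h1.1, fun l hl => ?_⟩
      rcases Nat.lt_succ_iff_lt_or_eq.1 hl with h | h
      · exact h1.2 l h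
      · rw [Fin.ext h]; simpa using h2
    rw [this, map_zero]
  · refine LL_zero_of_ff z v (hz.1 v) _ fun β hβ => ?_
    simp only [hat, eval_X, gen, ev, min_self]
    rw [if_neg]
    rintro ⟨_, h⟩
    exact hβ (funext fun l => h l l.2)
  · have hsk : z G.sink = none := by
      by_contra h
      exact hs _ hz.2 (mem_dom.2 h)
    have := vanish_unless_ext (F := F) (G := G) z (fun b => if b = true then 1 else 0) G.sink j ∅
      (by simp; omega) hsk ⟨j, fun β hβ => by simp [hβ]⟩ (by simp)
    rw [← this]
    congr 1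
    funext β
    simp only [hat, map_sub, map_one, eval_X, gen, termF, Finset.prod_empty, mul_one]
    split_ifs <;> simp

/-- the degree lower bound -/
theorem no_low_degree {K D : ℕ} (ht : 2 * D + 3 < t) (hK : 4 * D + 5 ≤ K)
    (hs : ∀ A, Peb G K A → G.sink ∉ A) : ¬ HasPCRefutation (PP F G t) D := by
  rintro ⟨l, L, h1, hL⟩
  have key : ∀ i ≤ l, ∀ z : W → Option (Fin t → Bool), Legal G K z → LL z (hat G (L i)) = 0 := by
    intro i
    induction i using Nat.strong_induction_on with
    | _ i ih =>
      intro hi z hz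
      rcases (hL i hi).2 with hj | ⟨x, e⟩ | ⟨j, hj, k, hk, u, v, e⟩ | ⟨j, hj, x, e⟩
      · exact axioms_ok (by omega) hs hj z hz
      · have : hat G (L i) = 0 := by
          funext β
          simp [hat, e, pow_two, gen_sq]
        rw [this, map_zero]
      · have : hat G (L i) = u • hat G (L j) + v • hat G (L k) := by
          funext β
          simp [hat, e]
        rw [this, map_add, map_smul, map_smul, ih j hj (by omega) z hz, ih k hk (by omega) z hz]
        simp
      · have : hat G (L i) = gen F G x * hat G (L j) := by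
          funext β
          simp [hat, e]
        rw [this]
        exact closure_step ht hK x (hL j (by omega)).1 (ih j hj (by omega)) z hz
  have h2 := key l le_rfl (fun _ => none) ⟨by simp, by
    have : dom (fun _ : W => (none : Option (Fin t → Bool))) = ∅ := by simp [dom]
    rw [this]; exact peb_empty K⟩
  have h3 : hat G (L l) = 1 := by
    funext β
    simp [hat, h1]
  rw [h3, LL_none_one (by omega)] at h2
  exact one_ne_zero h2

end Pool.Agent.P.MP_a6f615_lc
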