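import Pool.Agent.P.MP_a6f615_lc.Space

namespace Pool.Agent.P.MP_a6f615_lc

open MvPolynomial
open Classical

/-- a directed acyclic graph in which every non-source has exactly two predecessors -/
structure PG (W : Type) where
  src : W → Prop
  p1 : W → W
  p2 : W → W
  rk : W → ℕ
  h1 : ∀ v, ¬ src v → rk (p1 v) < rk v
  h2 : ∀ v, ¬ src v → rk (p2 v) < rk v
  hne : ∀ v, ¬ src v → p1 v ≠ p2 v
  sink : W

abbrev Var (W : Type) (t : ℕ) : Type := (W × Fin t) ⊕ (W × Fin t × Fin t × Fin (t + 1))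

variable {W : Type} {t : ℕ}

abbrev yv (v : W) (j : Fin t) : Var W t := Sum.inl (v, j)

def ev (v : W) (i i' : Fin t) (j : ℕ) : Var W t :=
  Sum.inr (v, i, i', ⟨min j t, Nat.lt_succ_of_le (min_le_right _ _)⟩)

noncomputable def startC (G : PG W) (v : W) (i i' : Fin t) : Finset (Var W t × Bool) :=
  if G.src v then {(ev v i i' 0, true)}
  else {(yv (G.p1 v) i, true), (yv (G.p2 v) i', true), (ev v i i' 0, true)}

noncomputable def stepC (v : W) (i i' j : Fin t) : Finset (Var W t × Bool) :=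
  {(ev v i i' j, false), (yv v j, false), (ev v i i' (j + 1), true)}

def IsClause (G : PG W) (c : Finset (Var W t × Bool)) : Prop :=
  (∃ v i i', c = startC G v i i') ∨ (∃ v i i' j, c = stepC v i i' j) ∨
    (∃ v i i', c = {(ev v i i' t, false)}) ∨ (∃ j, c = {(yv G.sink j, true)})

lemma card_clause (G : PG W) {c : Finset (Var W t × Bool)} (h : IsClause G c) : c.card ≤ 3 := by
  rcases h with ⟨v, i, i', rfl⟩ | ⟨v, i, i', j, rfl⟩ | ⟨v, i, i', rfl⟩ | ⟨j, rfl⟩
  · unfold startC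
    split_ifs
    · simp
    · exact Finset.card_le_three
  · exact Finset.card_le_three
  · simp
  · simp

variable {F : Type} [Field F]

noncomputable def prem (F : Type) [Field F] (G : PG W) (v : W) (i i' : Fin t) :
    MvPolynomial (Var W t) F :=
  if G.src v then 1 else (1 - X (yv (G.p1 v) i)) * (1 - X (yv (G.p2 v) i'))

lemma poly_start (G : PG W) (v : W) (i i' : Fin t) :
    clausePoly F (startC G v i i') = prem F G v i i' * (1 - X (ev v i i' 0)) := by
  unfold startC prem clausePoly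
  split_ifs with h
  · simp
  · have := G.hne v h
    rw [Finset.prod_insert, Finset.prod_insert]
    · simp [mul_assoc]
    · simp [ev]
    · simp [ev, this]

lemma poly_step (v : W) (i i' j : Fin t) :
    clausePoly F (stepC v i i' j) =
      X (ev v i i' j) * X (yv v j) * (1 - X (ev v i i' (j + 1))) := by
  unfold stepC clausePoly
  rw [Finset.prod_insert, Finset.prod_insert]
  · simp [mul_assoc]
  · simp [ev]
  · simp [ev]

/-- the set of clause polynomials -/
def PP (F : Type) [Field F] (G : PG W) (t : ℕ) : Set (MvPolynomial (Var W t) F) :=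
  clausePoly F '' {c | IsClause G c}

lemma mem_PP {G : PG W} {p : MvPolynomial (Var W t) F} : p ∈ PP F G t ↔
    (∃ v i i', p = prem F G v i i' * (1 - X (ev v i i' 0))) ∨
    (∃ v i i', ∃ j : Fin t, p = X (ev v i i' j) * X (yv v j) * (1 - X (ev v i i' (j + 1)))) ∨
    (∃ v i i', p = X (ev v i i' t)) ∨ (∃ j, p = 1 - X (yv G.sink j)) := by
  constructor
  · rintro ⟨c, hc, rfl⟩
    rcases hc with ⟨v, i, i', rfl⟩ | ⟨v, i, i', j, rfl⟩ | ⟨v, i, i', rfl⟩ | ⟨j, rfl⟩
    · exact Or.inl ⟨v, i, i', poly_start G v i i'⟩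
    · exact Or.inr (Or.inl ⟨v, i, i', j, poly_step v i i' j⟩)
    · exact Or.inr (Or.inr (Or.inl ⟨v, i, i', by simp [clausePoly]⟩))
    · exact Or.inr (Or.inr (Or.inr ⟨j, by simp [clausePoly]⟩))
  · rintro (⟨v, i, i', rfl⟩ | ⟨v, i, i', j, rfl⟩ | ⟨v, i, i', rfl⟩ | ⟨j, rfl⟩)
    · exact ⟨_, Or.inl ⟨v, i, i', rfl⟩, poly_start G v i i'⟩
    · exact ⟨_, Or.inr (Or.inl ⟨v, i, i', j, rfl⟩), poly_step v i i' j⟩
    · exact ⟨_, Or.inr (Or.inr (Or.inl ⟨v, i, i', rfl⟩)), by simp [clausePoly]⟩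
    · exact ⟨_, Or.inr (Or.inr (Or.inr ⟨j, rfl⟩)), by simp [clausePoly]⟩

lemma totalDegree_clausePoly {V : Type} (c : Finset (V × Bool)) :
    (clausePoly F c).totalDegree ≤ c.card := by
  unfold clausePoly
  refine (totalDegree_finsetProd _ _).trans ?_
  rw [Finset.card_eq_sum_ones]
  refine Finset.sum_le_sum fun l _ => ?_
  split_ifs
  · exact (totalDegree_sub _ _).trans (by simp [totalDegree_X])
  · simp [totalDegree_X]

/-- product of the first `j` variables of the block of `v` -/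
noncomputable def Ypre (F : Type) [Field F] (t : ℕ) (v : W) (j : ℕ) : MvPolynomial (Var W t) F :=
  ∏ l ∈ Finset.univ.filter (fun l : Fin t => l.val < j), X (yv v l)

lemma Ypre_zero (v : W) : Ypre F t v 0 = 1 := by simp [Ypre]

lemma Ypre_succ (v : W) (j : ℕ) (hj : j < t) :
    Ypre F t v (j + 1) = Ypre F t v j * X (yv v ⟨j, hj⟩) := by
  unfold Ypre
  have : Finset.univ.filter (fun l : Fin t => l.val < j + 1) =
      insert ⟨j, hj⟩ (Finset.univ.filter (fun l : Fin t => l.val < j)) := by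
    ext l
    simp only [Finset.mem_filter, Finset.mem_univ, true_and, Finset.mem_insert, Fin.ext_iff]
    omega
  rw [this, Finset.prod_insert (by simp), mul_comm]

lemma sz_Ypre (v : W) (j : ℕ) : sz (Ypre F t v j) ≤ 1 := sz_prod_X _ _

/-- the block monomial -/
noncomputable def TT (F : Type) [Field F] (t : ℕ) (v : W) : MvPolynomial (Var W t) F :=
  Ypre F t v t

lemma sz_TT (v : W) : sz (TT F t v) ≤ 1 := sz_Ypre _ _

lemma sz_prem (G : PG W) (v : W) (i i' : Fin t) : sz (prem F G v i i') ≤ 4 := by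
  unfold prem
  split_ifs
  · exact sz_one.trans (by omega)
  · exact sz_mul_le (sz_one_sub (sz_X _)) (sz_one_sub (sz_X _))

variable {G : PG W} {K : Finset (MvPolynomial (Var W t) F)}

lemma der_wide (K : Finset (MvPolynomial (Var W t) F)) (v : W) (i i' : Fin t) :
    Der (PP F G t) K (prem F G v i i' * TT F t v) 78 := by
  have hH : ∀ j, sz (prem F G v i i' * Ypre F t v j * (1 - X (ev v i i' j))) ≤ 8 := fun j =>
    sz_mul_le (sz_mul_le (sz_prem G v i i') (sz_Ypre v j)) (sz_one_sub (sz_X _))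
  have d1 : Der (PP F G t) K (prem F G v i i' * Ypre F t v t * (1 - X (ev v i i' t))) 78 := by
    refine der_iter (fun j => prem F G v i i' * Ypre F t v j * (1 - X (ev v i i' j))) t
      (b := 8) (e' := 70) ?_ hH ?_ le_rfl
    · refine der_ax (mem_PP.2 (Or.inl ⟨v, i, i', by simp [Ypre_zero]⟩)) ((hH 0).trans (by omega))
    · intro j hj
      have s1 : sz (X (ev v i i' j) * X (yv v ⟨j, hj⟩) * (1 - X (ev v i i' (j + 1))) :
          MvPolynomial (Var W t) F) ≤ 2 :=
        sz_mul_le (sz_mul_le (sz_X _) (sz_X _)) (sz_one_sub (sz_X _))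
      refine (der_ax (mem_PP.2 (Or.inr (Or.inl ⟨v, i, i', ⟨j, hj⟩, rfl⟩))) s1).cut s1
        (der_comb (ins_mem (ins_self _ _))
          (ins_self _ _)
          (r₁ := X (yv v ⟨j, hj⟩) * (1 - X (ev v i i' (j + 1))))
          (r₂ := prem F G v i i' * Ypre F t v j) ?_
          (sz_mul_le (sz_X _) (sz_one_sub (sz_X _)))
          (sz_mul_le (sz_prem G v i i') (sz_Ypre v j)) (hH j) s1 le_rfl) (by omega) (by omega)
      rw [Ypre_succ v j hj]; ring
  have s2 : sz (X (ev v i i' t) : MvPolynomial (Var W t) F) ≤ 1 := sz_X _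
  refine d1.cut (hH t) ((der_ax (mem_PP.2 (Or.inr (Or.inr (Or.inl ⟨v, i, i', rfl⟩)))) s2).cut s2
    (der_comb (ins_mem (ins_self _ _))
      (ins_self _ _) (r₁ := 1) (r₂ := prem F G v i i' * TT F t v) ?_
      sz_one (sz_mul_le (sz_prem G v i i') (sz_TT v)) (hH t) s2 le_rfl) (e := 70)
      (by omega) (by omega)) le_rfl (by omega)
  unfold TT; ring

lemma der_zero (K : Finset (MvPolynomial (Var W t) F)) (i : Fin t) :
    Der (PP F G t) K 0 1 := by
  have s2 : sz (X (ev G.sink i i t) : MvPolynomial (Var W t) F) ≤ 1 := sz_X _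
  have d := der_lin (P := PP F G t)
    (ins_self (X (ev G.sink i i t) : MvPolynomial (Var W t) F) K)
    (ins_self _ _) 0 0 (e := 0) (by simp [sz_zero])
  simp only [map_zero, zero_mul, add_zero] at d
  exact (der_ax (mem_PP.2 (Or.inr (Or.inr (Or.inl ⟨_, i, i, rfl⟩)))) s2).cut s2 d le_rfl le_rfl

lemma der_src (K : Finset (MvPolynomial (Var W t) F)) (ht : 0 < t) {v : W} (hv : G.src v) :
    Der (PP F G t) K (TT F t v) 86 := by
  have := der_wide (G := G) K v ⟨0, ht⟩ ⟨0, ht⟩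
  simp only [prem, hv, if_true, one_mul] at this
  exact this.mono (by omega)

lemma der_row (K : Finset (MvPolynomial (Var W t) F)) {v : W} (hv : ¬ G.src v) (i : Fin t) :
    Der (PP F G t) K ((1 - X (yv (G.p1 v) i)) * (1 - TT F t (G.p2 v)) * TT F t v) 82 := by
  have hH : ∀ j, sz ((1 - X (yv (G.p1 v) i)) * (1 - Ypre F t (G.p2 v) j) * TT F t v) ≤ 4 :=
    fun j => sz_mul_le (sz_mul_le (sz_one_sub (sz_X _)) (sz_one_sub (sz_Ypre _ _))) (sz_TT v)
  refine der_iter
    (fun j => (1 - X (yv (G.p1 v) i)) * (1 - Ypre F t (G.p2 v) j) * TT F t v) t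
    (b := 4) (e' := 78) ?_ hH ?_ le_rfl
  · simpa [Ypre_zero] using (der_zero (G := G) K i).mono (show 1 ≤ 82 by omega)
  · intro j hj
    have s1 : sz (prem F G v i ⟨j, hj⟩ * TT F t v) ≤ 4 :=
      sz_mul_le (sz_prem G v _ _) (sz_TT v)
    refine (der_wide _ v i ⟨j, hj⟩).cut s1
      (der_comb (ins_mem (ins_self _ _))
        (ins_self _ _) (r₁ := X (yv (G.p2 v) ⟨j, hj⟩)) (r₂ := 1) ?_
        (sz_X _) sz_one (hH j) s1 le_rfl) le_rfl (by omega)
    rw [Ypre_succ _ j hj]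
    simp only [prem, hv, if_false]
    ring

lemma der_imp3 (K : Finset (MvPolynomial (Var W t) F)) (ht : 0 < t) {v : W} (hv : ¬ G.src v) :
    Der (PP F G t) K ((1 - TT F t (G.p1 v)) * (1 - TT F t (G.p2 v)) * TT F t v) 86 := by
  have hH : ∀ j, sz ((1 - Ypre F t (G.p1 v) j) * (1 - TT F t (G.p2 v)) * TT F t v) ≤ 4 :=
    fun j => sz_mul_le (sz_mul_le (sz_one_sub (sz_Ypre _ _)) (sz_one_sub (sz_TT _))) (sz_TT v)
  refine der_iter
    (fun j => (1 - Ypre F t (G.p1 v) j) * (1 - TT F t (G.p2 v)) * TT F t v) t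
    (b := 4) (e' := 82) ?_ hH ?_ le_rfl
  · simpa [Ypre_zero] using (der_zero (G := G) K ⟨0, ht⟩).mono (show 1 ≤ 86 by omega)
  · intro j hj
    have s1 : sz ((1 - X (yv (G.p1 v) ⟨j, hj⟩)) * (1 - TT F t (G.p2 v)) * TT F t v) ≤ 4 :=
      sz_mul_le (sz_mul_le (sz_one_sub (sz_X _)) (sz_one_sub (sz_TT _))) (sz_TT v)
    refine (der_row _ hv ⟨j, hj⟩).cut s1
      (der_comb (ins_mem (ins_self _ _))
        (ins_self _ _) (r₁ := X (yv (G.p1 v) ⟨j, hj⟩)) (r₂ := 1) ?_
        (sz_X _) sz_one (hH j) s1 le_rfl) le_rfl (by omega)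
    rw [Ypre_succ _ j hj]
    ring

/-- the implication polynomial: `w` pebbled implies `b` pebbled -/
noncomputable def Imp (F : Type) [Field F] (t : ℕ) (w b : W) : MvPolynomial (Var W t) F :=
  (1 - TT F t w) * TT F t b

lemma sz_Imp (w b : W) : sz (Imp F t w b) ≤ 2 := sz_mul_le (sz_one_sub (sz_TT _)) (sz_TT _)

lemma der_half (ht : 0 < t) {v : W} (hv : ¬ G.src v) (h2 : TT F t (G.p2 v) ∈ K) :
    Der (PP F G t) K (Imp F t (G.p1 v) v) 86 := by
  have s1 : sz ((1 - TT F t (G.p1 v)) * (1 - TT F t (G.p2 v)) * TT F t v) ≤ 4 :=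
    sz_mul_le (sz_mul_le (sz_one_sub (sz_TT _)) (sz_one_sub (sz_TT _))) (sz_TT v)
  refine (der_imp3 K ht hv).cut s1
    (der_comb (ins_self _ _) (ins_mem h2)
      (r₁ := 1) (r₂ := Imp F t (G.p1 v) v) ?_ sz_one (sz_Imp _ _) s1 (sz_TT _) le_rfl)
    le_rfl (by omega)
  unfold Imp; ring

lemma der_mp {w b : W} (h1 : Imp F t w b ∈ K) (h2 : TT F t w ∈ K) :
    Der (PP F G t) K (TT F t b) 12 := by
  refine der_comb h1 h2 (r₁ := 1) (r₂ := TT F t b) ?_ sz_one (sz_TT _) (sz_Imp _ _) (sz_TT _)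
    le_rfl
  unfold Imp; ring

lemma der_place (ht : 0 < t) {v : W} (hv : ¬ G.src v) (h1 : TT F t (G.p1 v) ∈ K)
    (h2 : TT F t (G.p2 v) ∈ K) : Der (PP F G t) K (TT F t v) 86 :=
  (der_half ht hv h2).cut (sz_Imp _ _)
    (der_mp (ins_self _ _) (ins_mem h1)) le_rfl (by omega)

lemma der_extend (ht : 0 < t) {v w : W} (hv : ¬ G.src v) (h1 : Imp F t w (G.p1 v) ∈ K)
    (h2 : TT F t (G.p2 v) ∈ K) : Der (PP F G t) K (Imp F t w v) 86 := by
  refine (der_half ht hv h2).cut (sz_Imp _ _)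
    (der_comb (ins_self _ _) (ins_mem h1)
      (r₁ := 1 - TT F t w) (r₂ := TT F t v) ?_ (sz_one_sub (sz_TT _)) (sz_TT _) (sz_Imp _ _)
      (sz_Imp _ _) le_rfl) le_rfl (by omega)
  unfold Imp; ring

lemma der_final (h : TT F t G.sink ∈ K) : Der (PP F G t) K 1 15 := by
  have := der_iter (P := PP F G t) (K := K) (fun j => Ypre F t G.sink (t - j)) t
    (b := 1) (e' := 14) (e := 15) (der_mem h ((sz_TT _).trans (by omega)))
    (fun j => sz_Ypre _ _) ?_ le_rfl
  · simpa [Ypre_zero] using this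
  · intro j hj
    have hj' : t - (j + 1) < t := by omega
    have s1 : sz (1 - X (yv G.sink ⟨_, hj'⟩) : MvPolynomial (Var W t) F) ≤ 2 :=
      sz_one_sub (sz_X _)
    refine (der_ax (mem_PP.2 (Or.inr (Or.inr (Or.inr ⟨⟨_, hj'⟩, rfl⟩)))) s1).cut s1
      (der_comb (ins_mem (ins_self _ _))
        (ins_self _ _) (r₁ := 1) (r₂ := Ypre F t G.sink (t - (j + 1))) ?_
        sz_one (sz_Ypre _ _) (sz_Ypre _ _) s1 le_rfl) (by omega) (by omega)
    have e : t - j = t - (j + 1) + 1 := by omega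
    rw [e, Ypre_succ _ _ hj']
    ring

end Pool.Agent.P.MP_a6f615_lc
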