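import Pool.Agent.P.MP_a6f615_lc.Strategy
import Pool.Agent.P.MP_a6f615_lc.Degree

namespace Pool.Agent.P.MP_a6f615_lc

open MvPolynomial

lemma HasPCRefutation.mono {V F : Type} [Field F] {P : Set (MvPolynomial V F)} {D D' : ℕ}
    (h : HasPCRefutation P D) (hD : D ≤ D') : HasPCRefutation P D' := by
  obtain ⟨l, L, h1, hL⟩ := h
  exact ⟨l, L, h1, fun i hi => ⟨(hL i hi).1.trans hD, (hL i hi).2⟩⟩

theorem main (s : ℕ) :
    ∃ (V : Type) (_ : Fintype V) (Φ : Finset (Finset (V × Bool))), (∀ c ∈ Φ, c.card ≤ 3) ∧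
      ∀ (F : Type) [Field F] (P : Set (MvPolynomial V F)), P = clausePoly F '' Φ →
        (∀ a : V → F, (∀ x, a x = 0 ∨ a x = 1) → ∃ p ∈ P, MvPolynomial.eval a p ≠ 0) ∧
        (∃ (ℓ : ℕ) (M : ℕ → Finset (MvPolynomial V F)), M 0 = ∅ ∧ 1 ∈ M ℓ ∧
          (∀ i < ℓ, SemStep P (M i) (M (i + 1)) ∧ SynStep P (M i) (M (i + 1))) ∧
          ∀ i ≤ ℓ, monSpace (M i) ≤ 6 * s + 105) ∧
        ∃ D : ℕ, IsLeast {D' | HasPCRefutation P D'} D ∧
          ∀ p ∈ P, p.totalDegree + s ^ 2 ≤ D := by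
  classical
  set p := 2 * s + 3 with hp
  set μ := 2 * s + 4 with hμ
  set k := (p + 1) * (p + 1) + 2 with hk
  set N := k ^ (μ + 1) with hN
  set t := 2 * (s ^ 2 + 2) + 4 with ht
  have hk0 : 0 < k := by omega
  set G := FG N p (loF k (μ + 1)) (loF_lt hk0 (μ + 1)) with hG
  refine ⟨Var (Vx N p) t, inferInstance, Finset.univ.filter (IsClause G), ?_, ?_⟩
  · intro c hc
    exact card_clause G (Finset.mem_filter.1 hc).2
  intro F _ P hP
  have hPP : P = PP F G t := by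
    rw [hP, PP]
    congr 1
    ext c
    simp
  subst hPP
  obtain ⟨M, hM, h1⟩ := small_space (F := F) (N := N) (p := p) (t := t)
    (hlo := loF_lt hk0 (μ + 1)) (s := 6 * s + 105) (by omega) (card_Opn hk0 (μ + 1) N) (by omega)
  have hex := hasPC_of_reach hM h1
  have hne : (PP F G t).Nonempty :=
    ⟨_, mem_PP.2 (Or.inr (Or.inr (Or.inr ⟨⟨0, by omega⟩, rfl⟩)))⟩
  refine ⟨fun a ha => ?_, ?_, Nat.find hex, ⟨Nat.find_spec hex, fun D hD => Nat.find_min' hex hD⟩,
    fun q hq => ?_⟩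
  · obtain ⟨D, hD⟩ := hex
    exact unsat_of_hasPC hD a ha
  · obtain ⟨l, L, e0, el, hL⟩ := exists_seq hM
    refine ⟨l, L, e0, by rw [el]; exact h1,
      fun i hi => ⟨semStep_of_synStep hne (hL i hi).1, (hL i hi).1⟩, fun i hi => ?_⟩
    refine (monSpace_le_cost _).trans ?_
    rcases Nat.eq_zero_or_pos i with h | h
    · rw [h, e0]; simp [cost]
    · have := (hL (i - 1) (by omega)).2
      rwa [Nat.sub_add_cancel h] at this
  · have hd : q.totalDegree ≤ 3 := by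
      obtain ⟨c, hc, rfl⟩ := hq
      exact (totalDegree_clausePoly c).trans (card_clause G hc)
    by_contra hlt
    refine no_low_degree (F := F) (G := G) (t := t) (K := 4 * (s ^ 2 + 2) + 5) (D := s ^ 2 + 2)
      (by omega) le_rfl ?_ ((Nat.find_spec hex).mono (by omega))
    intro A hA
    refine sink_not_peb k μ _ le_rfl rfl (fun ν hν a i ha hi => loF_eq hν a i ha hi) ?_ hA
    rw [hμ, hp]
    nlinarith

end Pool.Agent.P.MP_a6f615_lc
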