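import Pool.Agent.P.MP_a6f615_lc.Formula

namespace Pool.Agent.P.MP_a6f615_lc

open Classical

section general

variable {W : Type} (G : PG W)

def PStep (A B : Finset W) : Prop :=
  ∀ v ∈ B, v ∈ A ∨ G.src v ∨ (G.p1 v ∈ A ∧ G.p2 v ∈ A)

/-- black pebbling configurations reachable with at most `K` pebbles -/
def Peb (K : ℕ) (A : Finset W) : Prop :=
  Relation.ReflTransGen (fun A B => PStep G A B ∧ B.card ≤ K) ∅ A

variable {G}

lemma Peb.card_le {K : ℕ} {A : Finset W} (h : Peb G K A) : A.card ≤ K := by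
  induction h with
  | refl => simp
  | tail _ h _ => exact h.2

lemma peb_empty (K : ℕ) : Peb G K ∅ := Relation.ReflTransGen.refl

lemma Peb.subset {K : ℕ} {A B : Finset W} (h : Peb G K A) (hB : B ⊆ A) : Peb G K B :=
  Relation.ReflTransGen.tail h
    ⟨fun _ hv => Or.inl (hB hv), (Finset.card_le_card hB).trans h.card_le⟩

lemma Peb.closure {K : ℕ} {A B : Finset W} (h : Peb G K A)
    (hB : ∀ w ∈ B, w ∈ A ∨ G.src w ∨ (G.p1 w ∈ B ∧ G.p2 w ∈ B)) (hK : B.card ≤ K) :
    Peb G K B := by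
  have key : ∀ r : ℕ, Peb G K (B.filter fun w => w ∈ A ∨ G.rk w < r) := by
    intro r
    induction r with
    | zero =>
      refine h.subset fun w hw => ?_
      simpa using (Finset.mem_filter.1 hw).2
    | succ r ih =>
      refine Relation.ReflTransGen.tail ih
        ⟨fun w hw => ?_, (Finset.card_le_card (Finset.filter_subset _ _)).trans hK⟩
      obtain ⟨hwB, hw⟩ := Finset.mem_filter.1 hw
      by_cases hA : w ∈ A
      · exact Or.inl (Finset.mem_filter.2 ⟨hwB, Or.inl hA⟩)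
      by_cases hs : G.src w
      · exact Or.inr (Or.inl hs)
      have hr : G.rk w < r + 1 := hw.resolve_left hA
      obtain ⟨h1, h2⟩ := ((hB w hwB).resolve_left hA).resolve_left hs
      have := G.h1 w hs
      have := G.h2 w hs
      exact Or.inr (Or.inr ⟨Finset.mem_filter.2 ⟨h1, Or.inr (by omega)⟩,
        Finset.mem_filter.2 ⟨h2, Or.inr (by omega)⟩⟩)
  have := key (B.sup G.rk + 1)
  rwa [Finset.filter_true_of_mem] at this
  intro w hw
  exact Or.inr (Nat.lt_succ_of_le (Finset.le_sup hw))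

variable (G)

/-- unpebbled dependency paths at a configuration -/
def Dep (A : Finset W) : W → W → Prop :=
  Relation.ReflTransGen fun a b => b ∉ A ∧ ¬ G.src b ∧ (a = G.p1 b ∨ a = G.p2 b)

variable {G}

lemma first_time {M : ℕ → Finset W} {b : W} {θ τ : ℕ} (h1 : b ∉ M θ) (h2 : b ∈ M τ)
    (hle : θ ≤ τ) : ∃ σ, θ ≤ σ ∧ σ < τ ∧ b ∈ M (σ + 1) ∧ ∀ ρ, θ ≤ ρ → ρ ≤ σ → b ∉ M ρ := by
  have hex : ∃ σ, θ ≤ σ ∧ b ∈ M σ := ⟨τ, hle, h2⟩
  have hs := Nat.find_spec hex
  have hne : Nat.find hex ≠ θ := fun e => h1 (e ▸ hs.2)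
  have hτ : Nat.find hex ≤ τ := Nat.find_min' hex ⟨hle, h2⟩
  refine ⟨Nat.find hex - 1, by omega, by omega, ?_, fun ρ hρ hρ' hb => ?_⟩
  · have : Nat.find hex - 1 + 1 = Nat.find hex := by omega
    rw [this]; exact hs.2
  · have := Nat.find_min' hex ⟨hρ, hb⟩
    omega

lemma dep_time {M : ℕ → Finset W} {T : ℕ} (hM : ∀ i < T, PStep G (M i) (M (i + 1)))
    {θ : ℕ} {x y : W} (h : Dep G (M θ) x y) :
    ∀ τ, θ ≤ τ → τ ≤ T → y ∈ M τ → ∃ τ', θ ≤ τ' ∧ τ' ≤ τ ∧ x ∈ M τ' := by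
  induction h with
  | refl => exact fun τ h1 _ h3 => ⟨τ, h1, le_rfl, h3⟩
  | @tail a b _ hab ih =>
    intro τ h1 h2 h3
    obtain ⟨σ, s1, s2, s3, s4⟩ := first_time hab.1 h3 h1
    have := ((hM σ (by omega) b s3).resolve_left (s4 σ s1 le_rfl)).resolve_left hab.2.1
    have ha : a ∈ M σ := by
      rcases hab.2.2 with e | e
      · rw [e]; exact this.1
      · rw [e]; exact this.2
    obtain ⟨τ', t1, t2, t3⟩ := ih σ s1 (by omega) ha
    exact ⟨τ', t1, by omega, t3⟩

end general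

/-! The interval graph -/

abbrev Vx (N p : ℕ) : Type := Fin (N + 1) × Bool × Fin (p + 1)

variable {N p : ℕ}

def mkI (N n : ℕ) : Fin (N + 1) := ⟨min n N, Nat.lt_succ_of_le (min_le_right _ _)⟩

def mkJ (p j : ℕ) : Fin (p + 1) := ⟨min j p, Nat.lt_succ_of_le (min_le_right _ _)⟩

def Cv (N p n j : ℕ) : Vx N p := (mkI N n, false, mkJ p j)

def Ov (N p n j : ℕ) : Vx N p := (mkI N n, true, mkJ p j)

def FG (N p : ℕ) (lo : ℕ → ℕ) (hlo : ∀ n, 0 < n → lo n < n) : PG (Vx N p) where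
  src v := v.1.val = 0
  p1 v := if v.2.1 = true then Ov N p (v.1.val - 1) v.2.2.val
    else if v.2.2.val = 0 then Cv N p (v.1.val - 1) p else Cv N p v.1.val (v.2.2.val - 1)
  p2 v := if v.2.1 = true then Cv N p v.1.val p else Ov N p (lo v.1.val) v.2.2.val
  rk v := v.1.val * (p + 2) + (if v.2.1 = true then p + 1 else v.2.2.val)
  h1 := by
    rintro ⟨⟨n, hn⟩, b, ⟨j, hj⟩⟩ hv
    simp only at hv
    obtain ⟨m, rfl⟩ : ∃ m, n = m + 1 := ⟨n - 1, by omega⟩
    have e1 : min m N = m := by omega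
    have e2 : min (m + 1) N = m + 1 := by omega
    cases b
    · by_cases h : j = 0
      · simp [h, Cv, mkI, mkJ, e1]; nlinarith
      · simp [h, Cv, mkI, mkJ, e2]; omega
    · simp [Ov, mkI, mkJ, e1]
  h2 := by
    rintro ⟨⟨n, hn⟩, b, ⟨j, hj⟩⟩ hv
    simp only at hv
    have h := hlo n (by omega)
    have e1 : min (lo n) N = lo n := by omega
    have e2 : min n N = n := by omega
    cases b
    · simp [Ov, mkI, mkJ, e1]
      have : (lo n + 1) * (p + 2) ≤ n * (p + 2) := Nat.mul_le_mul_right _ h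
      nlinarith
    · simp [Cv, mkI, mkJ, e2]
  hne := by
    rintro ⟨⟨n, hn⟩, b, ⟨j, hj⟩⟩ _
    cases b
    · by_cases h : j = 0 <;> simp [h, Cv, Ov]
    · simp [Cv, Ov]
  sink := Cv N p (N - 1) p

variable {lo : ℕ → ℕ} {hlo : ∀ n, 0 < n → lo n < n}

lemma idx_Cv {n : ℕ} (hn : n ≤ N) (j : ℕ) : (Cv N p n j).1.val = n := by
  simp [Cv, mkI, hn]

lemma idx_Ov {n : ℕ} (hn : n ≤ N) (j : ℕ) : (Ov N p n j).1.val = n := by
  simp [Ov, mkI, hn]

lemma nsrc_Cv {n : ℕ} (hn : n + 1 ≤ N) (j : ℕ) : ¬ (FG N p lo hlo).src (Cv N p (n + 1) j) := by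
  change ¬ (Cv N p (n + 1) j).1.val = 0
  rw [idx_Cv hn]; omega

lemma nsrc_Ov {n : ℕ} (hn : n + 1 ≤ N) (j : ℕ) : ¬ (FG N p lo hlo).src (Ov N p (n + 1) j) := by
  change ¬ (Ov N p (n + 1) j).1.val = 0
  rw [idx_Ov hn]; omega

lemma src_Cv (j : ℕ) : (FG N p lo hlo).src (Cv N p 0 j) := by
  exact idx_Cv (Nat.zero_le N) j

lemma src_Ov (j : ℕ) : (FG N p lo hlo).src (Ov N p 0 j) := by
  exact idx_Ov (Nat.zero_le N) j

lemma p1_C0 {n : ℕ} (hn : n + 1 ≤ N) : (FG N p lo hlo).p1 (Cv N p (n + 1) 0) = Cv N p n p := by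
  simp [FG, Cv, mkI, mkJ, hn]; omega

lemma p1_Cs {n j : ℕ} (hn : n ≤ N) (hj : j + 1 ≤ p) :
    (FG N p lo hlo).p1 (Cv N p n (j + 1)) = Cv N p n j := by
  simp [FG, Cv, mkI, mkJ, hn, hj]; omega

lemma p2_C {n j : ℕ} (hn : n ≤ N) (hj : j ≤ p) :
    (FG N p lo hlo).p2 (Cv N p n j) = Ov N p (lo n) j := by
  simp [FG, Cv, Ov, mkI, mkJ, hn, hj]

lemma p1_O {n j : ℕ} (hn : n + 1 ≤ N) (hj : j ≤ p) :
    (FG N p lo hlo).p1 (Ov N p (n + 1) j) = Ov N p n j := by
  simp [FG, Ov, mkI, mkJ, hn, hj]; omega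

lemma p2_O {n : ℕ} (hn : n ≤ N) (j : ℕ) :
    (FG N p lo hlo).p2 (Ov N p n j) = Cv N p n p := by
  simp [FG, Cv, Ov, mkI, mkJ, hn]

lemma dep_chain {A : Finset (Vx N p)} {n : ℕ} (hn : n + 1 ≤ N)
    (hA : ∀ l, Cv N p (n + 1) l ∉ A) {j j' : ℕ} (hj : j ≤ j') (hj' : j' ≤ p) :
    Dep (FG N p lo hlo) A (Cv N p (n + 1) j) (Cv N p (n + 1) j') := by
  induction j', hj using Nat.le_induction with
  | base => exact Relation.ReflTransGen.refl
  | succ j' _ ih =>
    exact Relation.ReflTransGen.tail (ih (by omega))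
      ⟨hA _, nsrc_Cv hn _, Or.inl (p1_Cs hn hj').symm⟩

lemma dep_bb {A : Finset (Vx N p)} {n n' : ℕ} (hn : n ≤ n') (hn' : n' ≤ N)
    (hA : ∀ m, n < m → m ≤ n' → ∀ l, Cv N p m l ∉ A) :
    Dep (FG N p lo hlo) A (Cv N p n p) (Cv N p n' p) := by
  induction n', hn using Nat.le_induction with
  | base => exact Relation.ReflTransGen.refl
  | succ n' h ih =>
    refine Relation.ReflTransGen.trans (Relation.ReflTransGen.tail
      (ih (by omega) fun m h1 h2 => hA m h1 (by omega))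
      ⟨hA (n' + 1) (by omega) le_rfl 0, nsrc_Cv hn' _, Or.inl (p1_C0 hn').symm⟩) ?_
    exact dep_chain hn' (hA (n' + 1) (by omega) le_rfl) (Nat.zero_le _) le_rfl

lemma dep_col {A : Finset (Vx N p)} {n n' j : ℕ} (hj : j ≤ p) (hn : n ≤ n') (hn' : n' ≤ N)
    (hA : ∀ m, n < m → m ≤ n' → Ov N p m j ∉ A) :
    Dep (FG N p lo hlo) A (Ov N p n j) (Ov N p n' j) := by
  induction n', hn using Nat.le_induction with
  | base => exact Relation.ReflTransGen.refl
  | succ n' h ih =>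
    exact Relation.ReflTransGen.tail (ih (by omega) fun m h1 h2 => hA m h1 (by omega))
      ⟨hA (n' + 1) (by omega) le_rfl, nsrc_Ov hn' _, Or.inl (p1_O hn' hj).symm⟩

/-- number of pebbles with index in `[a, b)` -/
noncomputable def cnt (A : Finset (Vx N p)) (a b : ℕ) : ℕ :=
  (A.filter fun v => a ≤ v.1.val ∧ v.1.val < b).card

lemma cnt_le_card (A : Finset (Vx N p)) (a b : ℕ) : cnt A a b ≤ A.card :=
  Finset.card_le_card (Finset.filter_subset _ _)

lemma cnt_add (A : Finset (Vx N p)) {a b c : ℕ} (h1 : a ≤ b) (h2 : b ≤ c) :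
    cnt A a c = cnt A a b + cnt A b c := by
  unfold cnt
  rw [← Finset.card_union_of_disjoint]
  · congr 1
    ext v
    simp only [Finset.mem_filter, Finset.mem_union]
    constructor
    · rintro ⟨h, h3, h4⟩
      by_cases h5 : v.1.val < b
      · exact Or.inl ⟨h, h3, h5⟩
      · exact Or.inr ⟨h, by omega, h4⟩
    · rintro (⟨h, h3, h4⟩ | ⟨h, h3, h4⟩)
      · exact ⟨h, h3, by omega⟩
      · exact ⟨h, by omega, h4⟩
  · rw [Finset.disjoint_filter]
    intro v _ h3 h4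
    omega

lemma cnt_mono (A : Finset (Vx N p)) {a b a' b' : ℕ} (h1 : a' ≤ a) (h2 : b ≤ b') :
    cnt A a b ≤ cnt A a' b' := by
  refine Finset.card_le_card fun v hv => ?_
  simp only [Finset.mem_filter] at hv ⊢
  exact ⟨hv.1, by omega, by omega⟩

lemma cnt_pos {A : Finset (Vx N p)} {a b : ℕ} {v : Vx N p} (hv : v ∈ A) (h1 : a ≤ v.1.val)
    (h2 : v.1.val < b) : 1 ≤ cnt A a b :=
  Finset.card_pos.2 ⟨v, Finset.mem_filter.2 ⟨hv, h1, h2⟩⟩

lemma Cv_notMem {A : Finset (Vx N p)} {a b n : ℕ} (h : cnt A a b = 0) (hn : n ≤ N) (h1 : a ≤ n)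
    (h2 : n < b) (l : ℕ) : Cv N p n l ∉ A := fun hv => by
  have := cnt_pos (a := a) (b := b) hv (by rw [idx_Cv hn]; exact h1) (by rw [idx_Cv hn]; exact h2)
  omega

lemma free_column {A : Finset (Vx N p)} {a b : ℕ} (h : cnt A a b ≤ p) :
    ∃ j ≤ p, ∀ m, m ≤ N → a ≤ m → m < b → Ov N p m j ∉ A := by
  by_contra hc
  push Not at hc
  have : (Finset.univ : Finset (Fin (p + 1))) ⊆
      (A.filter fun v => a ≤ v.1.val ∧ v.1.val < b).image fun v => v.2.2 := by
    intro j _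
    obtain ⟨m, h1, h2, h3, h4⟩ := hc j.val (Nat.le_of_lt_succ j.2)
    refine Finset.mem_image.2 ⟨Ov N p m j.val, Finset.mem_filter.2 ⟨h4, ?_⟩, ?_⟩
    · rw [idx_Ov h1]; exact ⟨h2, h3⟩
    · apply Fin.ext
      have := j.2
      simp only [Ov, mkJ]
      omega
  have h2 := (Finset.card_le_card this).trans Finset.card_image_le
  simp only [Finset.card_univ, Fintype.card_fin] at h2
  unfold cnt at h
  omega

lemma free_block (A : Finset (Vx N p)) (a h c : ℕ) : ∀ r : ℕ,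
    cnt A (a + c * h + 1) (a + (c + r) * h + 1) < r →
    ∃ i, c ≤ i ∧ i < c + r ∧ cnt A (a + i * h + 1) (a + (i + 1) * h + 1) = 0 := by
  intro r
  induction r with
  | zero => intro h; omega
  | succ r ih =>
    intro hr
    by_cases h0 : cnt A (a + (c + r) * h + 1) (a + (c + r + 1) * h + 1) = 0
    · exact ⟨c + r, by omega, by omega, h0⟩
    · have e := cnt_add A (a := a + c * h + 1) (b := a + (c + r) * h + 1)
        (c := a + (c + r + 1) * h + 1) (by nlinarith) (by nlinarith)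
      have e2 : c + (r + 1) = c + r + 1 := by ring
      rw [e2] at hr
      obtain ⟨i, h1, h2, h3⟩ := ih (by omega)
      exact ⟨i, h1, by omega, h3⟩

lemma Cv_min (n l : ℕ) : Cv N p n l = Cv N p n (min l p) := by
  simp [Cv, mkJ]

/-- refining a traversal window of one block -/
lemma refine_window {M : ℕ → Finset (Vx N p)} {T : ℕ}
    (hM : ∀ i < T, PStep (FG N p lo hlo) (M i) (M (i + 1))) {c m s t : ℕ} (hm : m + 1 ≤ N)
    (hc : c ≤ m + 1) (hst : s ≤ t) (hT : t ≤ T) (h0 : cnt (M s) c (m + 2) = 0)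
    (hb : Cv N p (m + 1) p ∈ M t) :
    ∃ s' u', s ≤ s' ∧ s' ≤ u' ∧ u' ≤ t ∧ cnt (M s') c (m + 2) = 0 ∧
      (∀ θ, s' < θ → θ ≤ t → 1 ≤ cnt (M θ) c (m + 2)) ∧ Cv N p m p ∈ M u' ∧
      ∀ θ, s' ≤ θ → θ ≤ u' → ∀ l, Cv N p (m + 1) l ∉ M θ := by
  set s' := Nat.findGreatest (fun τ => cnt (M τ) c (m + 2) = 0) t with hs'
  have a1 : s ≤ s' := Nat.le_findGreatest hst h0
  have a2 : s' ≤ t := Nat.findGreatest_le t
  have a3 : cnt (M s') c (m + 2) = 0 :=
    Nat.findGreatest_spec (P := fun τ => cnt (M τ) c (m + 2) = 0) hst h0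
  have a4 : ∀ θ, s' < θ → θ ≤ t → 1 ≤ cnt (M θ) c (m + 2) := fun θ h1 h2 =>
    Nat.one_le_iff_ne_zero.2 (Nat.findGreatest_is_greatest (P := fun τ => cnt (M τ) c (m + 2) = 0) h1 h2)
  have a5 : ∀ l, Cv N p (m + 1) l ∉ M s' := Cv_notMem a3 hm hc (by omega)
  obtain ⟨τ, t1, t2, t3⟩ := dep_time hM (dep_chain (lo := lo) (hlo := hlo) hm a5
    (Nat.zero_le p) le_rfl) t a2 hT hb
  obtain ⟨σ, s1, s2, s3, s4⟩ := first_time (a5 0) t3 t1
  have a6 := ((hM σ (by omega) _ s3).resolve_left (s4 σ s1 le_rfl)).resolve_left (nsrc_Cv hm 0)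
  rw [p1_C0 hm] at a6
  refine ⟨s', σ, a1, s1, by omega, a3, a4, a6.1, fun θ h1 h2 l hl => ?_⟩
  rw [Cv_min] at hl
  obtain ⟨τ', u1, u2, u3⟩ := dep_time hM (dep_chain (lo := lo) (hlo := hlo) hm a5
    (Nat.zero_le _) (min_le_right l p)) θ h1 (by omega) hl
  exact s4 τ' u1 (by omega) u3

lemma LB (k L : ℕ) (hk : (p + 1) * (p + 1) + 2 ≤ k)
    (hl : ∀ μ < L, ∀ a i, k ^ (μ + 1) ∣ a → i + 1 < k → lo (a + (i + 1) * k ^ μ) = a + i * k ^ μ)
    {M : ℕ → Finset (Vx N p)} {T : ℕ}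
    (hM : ∀ i < T, PStep (FG N p lo hlo) (M i) (M (i + 1))) :
    ∀ μ, μ + 1 ≤ L → ∀ a s u, k ^ (μ + 1) ∣ a → a + k ^ (μ + 1) ≤ N + 1 → s ≤ u → u ≤ T →
      cnt (M s) (a + 1) (a + k ^ (μ + 1)) = 0 → Cv N p (a + k ^ (μ + 1) - 1) p ∈ M u →
      ∃ θ, s ≤ θ ∧ θ ≤ u ∧ μ * (p + 1) + 1 ≤ cnt (M θ) (a + 1) (a + k ^ (μ + 1)) := by
  have hk2 : 2 ≤ k := by omega
  intro μ
  induction μ with
  | zero =>
    intro _ a s u _ hN hsu _ _ hb
    simp only [zero_add, pow_one] at hN hb ⊢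
    refine ⟨u, hsu, le_rfl, ?_⟩
    have e := idx_Cv (N := N) (p := p) (n := a + k - 1) (by omega) p
    simpa using cnt_pos (a := a + 1) (b := a + k) hb (by omega) (by omega)
  | succ μ ih =>
    intro hμ a s u hdiv hN hsu hT h0 hb
    set h := k ^ (μ + 1) with hh
    have hpos : 1 ≤ h := Nat.one_le_pow _ _ (by omega)
    have ek : k ^ (μ + 1 + 1) = k * h := by rw [pow_succ, mul_comm]
    rw [ek] at hN h0 hb ⊢
    set g := p + 1 with hg
    have blk : ∀ i, i + 1 < k → a + (i + 1) * h + h ≤ a + k * h := fun i hi => by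
      have : (i + 2) * h ≤ k * h := Nat.mul_le_mul_right _ hi
      nlinarith
    have mulS : ∀ i, (i + 1) * h = i * h + h := fun i => by ring
    -- the two kinds of statements
    let Done : Prop := ∃ i s' u', i + 1 < k ∧ s ≤ s' ∧ s' ≤ u' ∧ u' ≤ u ∧
      cnt (M s') (a + i * h + 1) (a + (i + 1) * h + 1) = 0 ∧
      Cv N p (a + (i + 1) * h - 1) p ∈ M u' ∧
      ∀ θ, s' < θ → θ ≤ u' → g ≤ cnt (M θ) (a + 1) (a + i * h + 1) +
        cnt (M θ) (a + (i + 1) * h + 1) (a + k * h)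
    let St : ℕ → Prop := fun r => ∃ i si ti, i + 1 < k ∧ k ≤ i + 2 + r * g ∧ s ≤ si ∧ si ≤ ti ∧
      ti ≤ u ∧ cnt (M si) (a + i * h + 1) (a + (i + 1) * h + 1) = 0 ∧
      Cv N p (a + (i + 1) * h) p ∈ M ti ∧
      ∀ θ, si < θ → θ ≤ ti → r ≤ cnt (M θ) (a + (i + 1) * h + 1) (a + k * h)
    have st0 : St 0 := by
      obtain ⟨i, rfl⟩ : ∃ i, k = i + 2 := ⟨k - 2, by omega⟩
      have b1 := blk i (by omega)
      have := mulS i
      obtain ⟨τ, t1, t2, t3⟩ := dep_time hM (dep_bb (lo := lo) (hlo := hlo)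
        (n := a + (i + 1) * h) (n' := a + (i + 2) * h - 1) (by omega) (by omega)
        (fun m h1 h2 => Cv_notMem h0 (by omega) (by omega) (by omega))) u hsu hT hb
      refine ⟨i, s, τ, by omega, by omega, le_rfl, t1, t2, ?_, t3, fun _ _ _ => Nat.zero_le _⟩
      have := cnt_mono (M s) (a := a + i * h + 1) (b := a + (i + 1) * h + 1) (a' := a + 1)
        (b' := a + (i + 2) * h) (by omega) (by omega)
      omega
    have step : ∀ r, r ≤ g → St r → Done ∨ (r < g ∧ St (r + 1)) := by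
      rintro r hr ⟨i, si, ti, hi, hki, q1, q2, q3, q4, q5, q6⟩
      have b1 := blk i hi
      have e1 := mulS i
      obtain ⟨m, hm⟩ : ∃ m, a + (i + 1) * h = m + 1 := ⟨a + (i + 1) * h - 1, by omega⟩
      rw [hm] at q4 q5
      obtain ⟨s', u', w1, w2, w3, w4, w5, w6, w7⟩ :=
        refine_window hM (c := a + i * h + 1) (m := m) (by omega) (by omega) q2 (by omega) q4 q5
      by_cases hA : ∀ θ, s' < θ → θ ≤ u' → g ≤ cnt (M θ) (a + 1) (a + i * h + 1) +
          cnt (M θ) (a + (i + 1) * h + 1) (a + k * h)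
      · refine Or.inl ⟨i, s', u', hi, by omega, w2, by omega, ?_, ?_, hA⟩
        · rw [hm]; exact w4
        · rw [hm]; exact w6
      push Not at hA
      obtain ⟨θ, x1, x2, x3⟩ := hA
      have x4 := q6 θ (by omega) (by omega)
      have hrg : r < g := by omega
      refine Or.inr ⟨hrg, ?_⟩
      have hig : g ≤ i := by
        have h1 : (r + 1) * g ≤ g * g := Nat.mul_le_mul_right _ hrg
        have h2 : (r + 1) * g = r * g + g := by ring
        omega
      obtain ⟨c, rfl⟩ : ∃ c, i = c + g := ⟨i - g, by omega⟩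
      have x5 := cnt_mono (M θ) (a := a + c * h + 1) (b := a + (c + g) * h + 1) (a' := a + 1)
        (b' := a + (c + g) * h + 1) (by omega) le_rfl
      obtain ⟨i', y1, y2, y3⟩ := free_block (M θ) a h c g (by omega)
      obtain ⟨j, hj, hcol⟩ := free_column (A := M θ) (a := a + 1) (b := a + (c + g) * h + 1)
        (by omega)
      have e2 := mulS i'
      have e3 : (i' + 1) * h ≤ (c + g) * h := Nat.mul_le_mul_right _ y2
      obtain ⟨m', hm'⟩ : ∃ m', a + (i' + 1) * h = m' + 1 := ⟨a + (i' + 1) * h - 1, by omega⟩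
      have d1 : Dep (FG N p lo hlo) (M θ) (Cv N p (m' + 1) p) (Ov N p (m' + 1) j) :=
        Relation.ReflTransGen.single ⟨hcol _ (by omega) (by omega) (by omega),
          nsrc_Ov (by omega) _, Or.inr (p2_O (by omega) j).symm⟩
      have d2 : Dep (FG N p lo hlo) (M θ) (Ov N p (m' + 1) j) (Ov N p (a + (c + g) * h) j) :=
        dep_col hj (by omega) (by omega) fun n h1 h2 => hcol n (by omega) (by omega) (by omega)
      have d3 : Dep (FG N p lo hlo) (M θ) (Ov N p (a + (c + g) * h) j) (Cv N p (m + 1) j) := by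
        refine Relation.ReflTransGen.single ⟨w7 θ (by omega) x2 j, nsrc_Cv (by omega) _,
          Or.inr ?_⟩
        rw [p2_C (by omega) hj, ← hm, hl (μ + 1) (by omega) a (c + g) hdiv hi]
      have d4 : Dep (FG N p lo hlo) (M θ) (Cv N p (m + 1) j) (Cv N p (m + 1) p) :=
        dep_chain (by omega) (w7 θ (by omega) x2) hj le_rfl
      obtain ⟨t', z1, z2, z3⟩ := dep_time hM (((d1.trans d2).trans d3).trans d4) ti (by omega)
        (by omega) q5
      have e5 : (r + 1) * g = r * g + g := by ring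
      refine ⟨i', θ, t', by omega, by omega, by omega, z1, by omega, y3, ?_, ?_⟩
      · rw [hm']; exact z3
      · intro ρ r1 r2
        have v1 := w5 ρ (by omega) (by omega)
        have v2 := q6 ρ (by omega) (by omega)
        have v3 := cnt_add (M ρ) (a := a + (c + g) * h + 1) (b := m + 2) (c := a + k * h)
          (by omega) (by omega)
        have v4 := cnt_mono (M ρ) (a := a + (c + g) * h + 1) (b := a + k * h)
          (a' := a + (i' + 1) * h + 1) (b' := a + k * h) (by omega) le_rfl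
        rw [hm] at v2
        have : m + 1 + 1 = m + 2 := rfl
        rw [this] at v2
        omega
    have all : ∀ r, r ≤ g → Done ∨ St r := by
      intro r
      induction r with
      | zero => exact fun _ => Or.inr st0
      | succ r ihr =>
        intro hr
        rcases ihr (by omega) with hd | hs
        · exact Or.inl hd
        · rcases step r (by omega) hs with hd | hs
          · exact Or.inl hd
          · exact Or.inr hs.2
    have done : Done := by
      rcases all g le_rfl with hd | hs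
      · exact hd
      · rcases step g le_rfl hs with hd | hs
        · exact hd
        · exact absurd hs.1 (lt_irrefl _)
    obtain ⟨i, s', u', hi, q1, q2, q3, q4, q5, q6⟩ := done
    have b1 := blk i hi
    have e1 := mulS i
    have hdiv' : h ∣ a + i * h := by
      refine Dvd.dvd.add ?_ (Dvd.intro_left i rfl)
      rw [ek] at hdiv
      exact (Dvd.intro_left k rfl).trans hdiv
    have x0 := cnt_mono (M s') (a := a + i * h + 1) (b := a + i * h + h) (a' := a + i * h + 1)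
      (b' := a + (i + 1) * h + 1) le_rfl (by omega)
    have e4 : a + i * h + h - 1 = a + (i + 1) * h - 1 := by omega
    obtain ⟨θ, t1, t2, t3⟩ := ih (by omega) (a + i * h) s' u' hdiv' (by omega) q2 (by omega)
      (by omega) (by rw [e4]; exact q5)
    have hne : s' < θ := by
      rcases lt_or_eq_of_le t1 with h1 | h1
      · exact h1
      · subst h1; omega
    have v1 := q6 θ hne t2
    have v2 := cnt_add (M θ) (a := a + 1) (b := a + i * h + 1) (c := a + k * h)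
      (by omega) (by omega)
    have v3 := cnt_add (M θ) (a := a + i * h + 1) (b := a + (i + 1) * h + 1) (c := a + k * h)
      (by omega) (by omega)
    have v4 := cnt_mono (M θ) (a := a + i * h + 1) (b := a + i * h + h) (a' := a + i * h + 1)
      (b' := a + (i + 1) * h + 1) le_rfl (by omega)
    refine ⟨θ, by omega, by omega, ?_⟩
    have : (μ + 1) * g = μ * g + g := by ring
    omega

/-- the black pebbling lower bound -/
theorem sink_not_peb (k μ K : ℕ) (hk : (p + 1) * (p + 1) + 2 ≤ k) (hN : N = k ^ (μ + 1))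
    (hl : ∀ ν < μ + 1, ∀ a i, k ^ (ν + 1) ∣ a → i + 1 < k →
      lo (a + (i + 1) * k ^ ν) = a + i * k ^ ν)
    (hK : K ≤ μ * (p + 1)) {A : Finset (Vx N p)} (hA : Peb (FG N p lo hlo) K A) :
    (FG N p lo hlo).sink ∉ A := by
  intro hs
  obtain ⟨T, M, h0, hT, hM⟩ := exists_seq hA
  obtain ⟨θ, _, t2, t3⟩ := LB (lo := lo) (hlo := hlo) k (μ + 1) hk hl (M := M) (T := T)
    (fun i hi => (hM i hi).1) μ le_rfl 0 0 T (dvd_zero _) (by omega) (Nat.zero_le _) le_rfl
    (by rw [h0]; simp [cnt]) (by rw [hT, zero_add, ← hN]; exact hs)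
  have := cnt_le_card (M θ) (0 + 1) (0 + k ^ (μ + 1))
  rcases Nat.eq_zero_or_pos θ with h | h
  · subst h
    rw [h0] at this t3
    simp only [Finset.card_empty] at this
    omega
  · have := (hM (θ - 1) (by omega)).2
    have e : θ - 1 + 1 = θ := by omega
    rw [e] at this
    omega

end Pool.Agent.P.MP_a6f615_lc
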