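import Pool.Agent.P.MP_a6f615_lc.Defs

namespace Pool.Agent.P.MP_a6f615_lc

open MvPolynomial
open Classical

variable {V F : Type} [Field F]

/-- number of monomials of a polynomial -/
noncomputable def sz (q : MvPolynomial V F) : ℕ := q.support.card

noncomputable def cost (M : Finset (MvPolynomial V F)) : ℕ := ∑ q ∈ M, sz q

/-- insertion with a fixed decidability instance -/
noncomputable def ins (q : MvPolynomial V F) (M : Finset (MvPolynomial V F)) :
    Finset (MvPolynomial V F) := insert q M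

lemma mem_ins {q r : MvPolynomial V F} {M : Finset (MvPolynomial V F)} :
    r ∈ ins q M ↔ r = q ∨ r ∈ M := Finset.mem_insert

lemma ins_self (q : MvPolynomial V F) (M : Finset (MvPolynomial V F)) : q ∈ ins q M :=
  mem_ins.2 (Or.inl rfl)

lemma ins_mem {q r : MvPolynomial V F} {M : Finset (MvPolynomial V F)} (h : r ∈ M) :
    r ∈ ins q M := mem_ins.2 (Or.inr h)

lemma sz_mul (p q : MvPolynomial V F) : sz (p * q) ≤ sz p * sz q := by
  unfold sz
  exact (Finset.card_le_card (support_mul p q)).trans Finset.card_add_le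

lemma sz_add (p q : MvPolynomial V F) : sz (p + q) ≤ sz p + sz q := by
  unfold sz
  exact (Finset.card_le_card support_add).trans (Finset.card_union_le _ _)

lemma sz_monomial (m : V →₀ ℕ) (a : F) : sz (monomial m a : MvPolynomial V F) ≤ 1 := by
  unfold sz
  exact (Finset.card_le_card support_monomial_subset).trans (by simp)

lemma sz_X (x : V) : sz (X x : MvPolynomial V F) ≤ 1 := sz_monomial _ _

lemma sz_C (a : F) : sz (C a : MvPolynomial V F) ≤ 1 := sz_monomial _ _

lemma sz_one : sz (1 : MvPolynomial V F) ≤ 1 := sz_C 1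

lemma sz_zero : sz (0 : MvPolynomial V F) = 0 := by simp [sz]

lemma sz_neg (p : MvPolynomial V F) : sz (-p) = sz p := by simp [sz]

lemma sz_sub (p q : MvPolynomial V F) : sz (p - q) ≤ sz p + sz q := by
  rw [sub_eq_add_neg]; exact (sz_add _ _).trans (by rw [sz_neg])

lemma sz_one_sub {p : MvPolynomial V F} (h : sz p ≤ 1) : sz (1 - p) ≤ 2 :=
  (sz_sub _ _).trans (by have := sz_one (V := V) (F := F); omega)

lemma sz_mul_le {p q : MvPolynomial V F} {a b : ℕ} (hp : sz p ≤ a) (hq : sz q ≤ b) :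
    sz (p * q) ≤ a * b := (sz_mul p q).trans (Nat.mul_le_mul hp hq)

lemma sz_prod_X {ι : Type} (S : Finset ι) (f : ι → V) :
    sz (∏ i ∈ S, X (f i) : MvPolynomial V F) ≤ 1 := by
  induction S using Finset.induction_on with
  | empty => simpa using sz_one
  | insert a s ha ih =>
    rw [Finset.prod_insert ha]
    simpa using sz_mul_le (sz_X (F := F) (f a)) ih

lemma cost_mono {M M' : Finset (MvPolynomial V F)} (h : M ⊆ M') : cost M ≤ cost M' :=
  Finset.sum_le_sum_of_subset h

lemma cost_insert (q : MvPolynomial V F) (M : Finset (MvPolynomial V F)) :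
    cost (ins q M) ≤ cost M + sz q := by
  unfold ins
  by_cases h : q ∈ M
  · rw [Finset.insert_eq_of_mem h]; omega
  · unfold cost; rw [Finset.sum_insert h]; omega

lemma monSpace_le_cost (M : Finset (MvPolynomial V F)) : monSpace M ≤ cost M := by
  unfold monSpace cost sz
  have : (⋃ q ∈ M, (q.support : Set (V →₀ ℕ))) = ((M.biUnion fun q => q.support : Finset _) : Set _) := by
    ext m; simp
  rw [this, Set.ncard_coe_finset]
  exact Finset.card_biUnion_le

/-- reachability by syntactic steps inside total cost `s` -/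
def Reach (P : Set (MvPolynomial V F)) (s : ℕ) :
    Finset (MvPolynomial V F) → Finset (MvPolynomial V F) → Prop :=
  Relation.ReflTransGen fun A B => SynStep P A B ∧ cost B ≤ s

variable {P : Set (MvPolynomial V F)}

lemma Reach.trans' {s : ℕ} {A B D : Finset (MvPolynomial V F)} (h : Reach P s A B)
    (h' : Reach P s B D) : Reach P s A D := Relation.ReflTransGen.trans h h'

lemma Reach.refl' {s : ℕ} (A : Finset (MvPolynomial V F)) : Reach P s A A :=
  Relation.ReflTransGen.refl

lemma reach_erase {s : ℕ} {A B : Finset (MvPolynomial V F)} (h : B ⊆ A) (hc : cost B ≤ s) :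
    Reach P s A B := Relation.ReflTransGen.single ⟨Or.inl h, hc⟩

lemma reach_add {s : ℕ} {A : Finset (MvPolynomial V F)} {q : MvPolynomial V F}
    (h : q ∈ P ∨ (∃ x : V, q = X x ^ 2 - X x) ∨
      (∃ p₁ ∈ A, ∃ p₂ ∈ A, ∃ a b : F, q = C a * p₁ + C b * p₂) ∨
      (∃ p ∈ A, ∃ x : V, q = X x * p)) (hc : cost A + sz q ≤ s) :
    Reach P s A (ins q A) :=
  Relation.ReflTransGen.single ⟨Or.inr ⟨q, by simp [ins], h⟩, (cost_insert q A).trans hc⟩

/-- `q` can be added to the context `K` with overhead `e` -/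
def Der (P : Set (MvPolynomial V F)) (K : Finset (MvPolynomial V F)) (q : MvPolynomial V F)
    (e : ℕ) : Prop :=
  sz q ≤ e ∧ ∀ s, cost K + e ≤ s → Reach P s K (ins q K)

lemma Der.mono {K : Finset (MvPolynomial V F)} {q : MvPolynomial V F} {e e' : ℕ}
    (h : Der P K q e) (he : e ≤ e') : Der P K q e' :=
  ⟨h.1.trans he, fun s hs => h.2 s (by omega)⟩

lemma Der.cut {K : Finset (MvPolynomial V F)} {q₁ q₂ : MvPolynomial V F} {e₁ e₂ b e : ℕ}
    (h₁ : Der P K q₁ e₁) (hb : sz q₁ ≤ b) (h₂ : Der P (ins q₁ K) q₂ e₂)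
    (he₁ : e₁ ≤ e) (he₂ : b + e₂ ≤ e) : Der P K q₂ e := by
  refine ⟨h₂.1.trans (by omega), fun s hs => ?_⟩
  have c1 := cost_insert q₁ K
  have r1 := h₁.2 s (by omega)
  have r2 := h₂.2 s (by omega)
  refine (r1.trans' r2).trans' (reach_erase ?_ ?_)
  · intro x hx
    simp only [mem_ins] at hx ⊢
    tauto
  · have := cost_insert q₂ K
    have := h₂.1
    omega

lemma der_ax {K : Finset (MvPolynomial V F)} {q : MvPolynomial V F} {e : ℕ} (h : q ∈ P)
    (he : sz q ≤ e) : Der P K q e :=
  ⟨he, fun _ hs => reach_add (Or.inl h) (by omega)⟩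

lemma der_mem {K : Finset (MvPolynomial V F)} {q : MvPolynomial V F} {e : ℕ} (h : q ∈ K)
    (he : sz q ≤ e) : Der P K q e :=
  ⟨he, fun _ _ => by unfold ins; rw [Finset.insert_eq_of_mem h]; exact Reach.refl' _⟩

lemma der_lin {K : Finset (MvPolynomial V F)} {p₁ p₂ : MvPolynomial V F} (h₁ : p₁ ∈ K)
    (h₂ : p₂ ∈ K) (a b : F) {e : ℕ} (he : sz (C a * p₁ + C b * p₂) ≤ e) :
    Der P K (C a * p₁ + C b * p₂) e :=
  ⟨he, fun _ hs => reach_add (Or.inr (Or.inr (Or.inl ⟨p₁, h₁, p₂, h₂, a, b, rfl⟩))) (by omega)⟩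

lemma der_X {K : Finset (MvPolynomial V F)} {p : MvPolynomial V F} (h : p ∈ K) (x : V)
    {e : ℕ} (he : sz (X x * p) ≤ e) : Der P K (X x * p) e :=
  ⟨he, fun _ hs => reach_add (Or.inr (Or.inr (Or.inr ⟨p, h, x, rfl⟩))) (by omega)⟩

lemma der_monomial {K : Finset (MvPolynomial V F)} {q : MvPolynomial V F} (h : q ∈ K)
    (m : V →₀ ℕ) (a : F) : Der P K (monomial m a * q) (2 * sz q) := by
  have key : sz (monomial m a : MvPolynomial V F) ≤ 1 ∧ Der P K (monomial m a * q) (2 * sz q) := by
    refine induction_on_monomial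
      (motive := fun r => sz r ≤ 1 ∧ Der P K (r * q) (2 * sz q)) ?_ ?_ m a
    · intro a
      refine ⟨sz_C a, ?_⟩
      have h1 : sz (C a * q + C 0 * q) ≤ 2 * sz q := by
        have := sz_mul_le (sz_C (V := V) a) (le_refl (sz q))
        simp only [map_zero, zero_mul, add_zero]; omega
      simpa using der_lin (P := P) h h a 0 h1
    · rintro p n ⟨hp, ih⟩
      have hp' : sz (p * X n) ≤ 1 := by simpa using sz_mul_le hp (sz_X (F := F) n)
      refine ⟨hp', ?_⟩
      have e : p * X n * q = X n * (p * q) := by ring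
      have h1 : sz (p * q) ≤ sz q := by simpa using sz_mul_le hp (le_refl (sz q))
      have h2 : sz (X n * (p * q)) ≤ sz q := by
        rw [← e]; simpa using sz_mul_le hp' (le_refl (sz q))
      rw [e]
      exact ih.cut h1 (der_X (ins_self _ _) n h2) le_rfl (by omega)
  exact key.2

lemma der_mul {K : Finset (MvPolynomial V F)} {q : MvPolynomial V F} (h : q ∈ K)
    (r : MvPolynomial V F) : Der P K (r * q) ((2 * sz r + 2) * sz q) := by
  have key : ∀ S : Finset (V →₀ ℕ),
      sz (∑ m ∈ S, monomial m (coeff m r) : MvPolynomial V F) ≤ S.card ∧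
      Der P K ((∑ m ∈ S, monomial m (coeff m r)) * q) ((2 * S.card + 2) * sz q) := by
    intro S
    induction S using Finset.induction_on with
    | empty =>
      refine ⟨by simp [sz_zero], ?_⟩
      have h1 : sz (C 0 * q + C 0 * q) ≤ 2 * sz q := by simp [sz_zero]
      simpa using der_lin (P := P) h h 0 0 h1
    | insert a S ha ih =>
      obtain ⟨h1, ih⟩ := ih
      rw [Finset.sum_insert ha, Finset.card_insert_of_notMem ha]
      set u : MvPolynomial V F := ∑ m ∈ S, monomial m (coeff m r) with hu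
      set w : MvPolynomial V F := monomial a (coeff a r) with hw
      have hw1 : sz w ≤ 1 := sz_monomial _ _
      have h2 : sz (w + u) ≤ S.card + 1 := (sz_add _ _).trans (by omega)
      refine ⟨h2, ?_⟩
      have h3 : sz (u * q) ≤ S.card * sz q := sz_mul_le h1 le_rfl
      have h4 : sz (w * q) ≤ sz q := by simpa using sz_mul_le hw1 (le_refl (sz q))
      have e : (w + u) * q = C 1 * (w * q) + C 1 * (u * q) := by simp [add_mul]
      have h5 : sz (C 1 * (w * q) + C 1 * (u * q)) ≤ (S.card + 1) * sz q := by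
        rw [← e]; exact sz_mul_le h2 le_rfl
      have d2 : Der P (ins (u * q) K) (w * q) (2 * sz q) :=
        der_monomial (ins_mem h) _ _
      have d3 : Der P (ins (w * q) (ins (u * q) K)) (C 1 * (w * q) + C 1 * (u * q))
          ((S.card + 1) * sz q) :=
        der_lin (ins_self _ _)
          (ins_mem (ins_self _ _)) 1 1 h5
      have d4 : Der P (ins (u * q) K) (C 1 * (w * q) + C 1 * (u * q))
          ((S.card + 2) * sz q) := d2.cut h4 d3 (by nlinarith) (by nlinarith)
      rw [e]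
      exact ih.cut h3 d4 (by nlinarith) (by nlinarith)
  have := (key r.support).2
  rwa [← as_sum r] at this

/-- the workhorse: a combination `r₁ q₁ + r₂ q₂` of two polynomials in memory -/
lemma der_comb {K : Finset (MvPolynomial V F)} {q₁ q₂ r₁ r₂ q : MvPolynomial V F}
    {a₁ a₂ b₁ b₂ e : ℕ} (h₁ : q₁ ∈ K) (h₂ : q₂ ∈ K) (hq : q = r₁ * q₁ + r₂ * q₂)
    (ha₁ : sz r₁ ≤ a₁) (ha₂ : sz r₂ ≤ a₂) (hb₁ : sz q₁ ≤ b₁) (hb₂ : sz q₂ ≤ b₂)
    (he : (2 * a₁ + 2) * b₁ + (2 * a₂ + 2) * b₂ ≤ e) : Der P K q e := by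
  have d1 : Der P K (r₁ * q₁) ((2 * a₁ + 2) * b₁) :=
    (der_mul h₁ r₁).mono (Nat.mul_le_mul (by omega) hb₁)
  have d2 : Der P (ins (r₁ * q₁) K) (r₂ * q₂) ((2 * a₂ + 2) * b₂) :=
    (der_mul (ins_mem h₂) r₂).mono (Nat.mul_le_mul (by omega) hb₂)
  have s1 : sz (r₁ * q₁) ≤ a₁ * b₁ := sz_mul_le ha₁ hb₁
  have s2 : sz (r₂ * q₂) ≤ a₂ * b₂ := sz_mul_le ha₂ hb₂
  have e1 : q = C 1 * (r₁ * q₁) + C 1 * (r₂ * q₂) := by simp [hq]
  have s3 : sz (C 1 * (r₁ * q₁) + C 1 * (r₂ * q₂)) ≤ a₁ * b₁ + a₂ * b₂ := by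
    rw [← e1, hq]; exact (sz_add _ _).trans (by omega)
  have d3 : Der P (ins (r₂ * q₂) (ins (r₁ * q₁) K))
      (C 1 * (r₁ * q₁) + C 1 * (r₂ * q₂)) (a₁ * b₁ + a₂ * b₂) :=
    der_lin (ins_mem (ins_self _ _))
      (ins_self _ _) 1 1 s3
  have d4 : Der P (ins (r₁ * q₁) K) (C 1 * (r₁ * q₁) + C 1 * (r₂ * q₂))
      (a₁ * b₁ + (2 * a₂ + 2) * b₂) := d2.cut s2 d3 (by nlinarith) (by nlinarith)
  rw [e1]
  exact d1.cut s1 d4 (by nlinarith) (by nlinarith)

/-- iterating a derivation along an index -/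
lemma der_iter {K : Finset (MvPolynomial V F)} (H : ℕ → MvPolynomial V F) (n : ℕ) {b e' e : ℕ}
    (h0 : Der P K (H 0) e) (hb : ∀ j, sz (H j) ≤ b)
    (hs : ∀ j < n, Der P (ins (H j) K) (H (j + 1)) e') (he : b + e' ≤ e) :
    Der P K (H n) e := by
  induction n with
  | zero => exact h0
  | succ n ih =>
    exact (ih fun j hj => hs j (by omega)).cut (hb n) (hs n (by omega)) le_rfl he

/-- from reachability to an indexed sequence -/
lemma exists_seq {α : Type} {r : α → α → Prop} {a b : α} (h : Relation.ReflTransGen r a b) :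
    ∃ (l : ℕ) (M : ℕ → α), M 0 = a ∧ M l = b ∧ ∀ i < l, r (M i) (M (i + 1)) := by
  induction h with
  | refl => exact ⟨0, fun _ => a, rfl, rfl, fun i hi => absurd hi (by omega)⟩
  | @tail b c _ hbc ih =>
    obtain ⟨l, M, h0, hl, hs⟩ := ih
    refine ⟨l + 1, fun i => if i ≤ l then M i else c, by simp [h0], by simp, fun i hi => ?_⟩
    by_cases h : i < l
    · simpa [h.le, Nat.succ_le_of_lt h] using hs i h
    · have : i = l := by omega
      subst this
      simpa [hl] using hbc

lemma semStep_of_synStep {M M' : Finset (MvPolynomial V F)} (hP : P.Nonempty)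
    (h : SynStep P M M') : SemStep P M M' := by
  have inM : ∀ (p q : MvPolynomial V F), q ∈ Ideal.span (M : Set (MvPolynomial V F)) →
      q ∈ Ideal.span (M : Set (MvPolynomial V F)) +
      Ideal.span (Set.range fun x : V => (X x ^ 2 - X x : MvPolynomial V F)) + Ideal.span {p} :=
    fun p q hq => Ideal.mem_sup_left (Ideal.mem_sup_left hq)
  obtain ⟨p0, hp0⟩ := hP
  rcases h with h | ⟨q, hM, hq⟩
  · exact ⟨p0, hp0, fun q hq => inM _ _ (Ideal.subset_span (h hq))⟩
  · have hmem : ∀ r ∈ M', r = q ∨ r ∈ M := by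
      intro r hr
      have : r ∈ (M' : Set (MvPolynomial V F)) := hr
      rw [hM] at this
      simpa using this
    rcases hq with hq | ⟨x, rfl⟩ | ⟨p₁, h₁, p₂, h₂, a, b, rfl⟩ | ⟨p, hp, x, rfl⟩
    · refine ⟨q, hq, fun r hr => ?_⟩
      rcases hmem r hr with rfl | h
      · exact Ideal.mem_sup_right (Ideal.subset_span rfl)
      · exact inM _ _ (Ideal.subset_span h)
    · refine ⟨p0, hp0, fun r hr => ?_⟩
      rcases hmem r hr with rfl | h
      · exact Ideal.mem_sup_left (Ideal.mem_sup_right (Ideal.subset_span ⟨x, rfl⟩))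
      · exact inM _ _ (Ideal.subset_span h)
    · refine ⟨p0, hp0, fun r hr => ?_⟩
      rcases hmem r hr with rfl | h
      · exact inM _ _ (Ideal.add_mem _ (Ideal.mul_mem_left _ _ (Ideal.subset_span h₁))
          (Ideal.mul_mem_left _ _ (Ideal.subset_span h₂)))
      · exact inM _ _ (Ideal.subset_span h)
    · refine ⟨p0, hp0, fun r hr => ?_⟩
      rcases hmem r hr with rfl | h
      · exact inM _ _ (Ideal.mul_mem_left _ _ (Ideal.subset_span hp))
      · exact inM _ _ (Ideal.subset_span h)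

/-- a configuration-style refutation yields a line-style refutation of some degree -/
lemma hasPC_of_reach {s : ℕ} {M : Finset (MvPolynomial V F)} (h : Reach P s ∅ M)
    (h1 : (1 : MvPolynomial V F) ∈ M) : ∃ D, HasPCRefutation P D := by
  have key : ∃ (l : ℕ) (L : ℕ → MvPolynomial V F) (D : ℕ),
      (∀ i < l, (L i).totalDegree ≤ D ∧
        (L i ∈ P ∨ (∃ x : V, L i = X x ^ 2 - X x) ∨
        (∃ j < i, ∃ k < i, ∃ a b : F, L i = C a * L j + C b * L k) ∨
        (∃ j < i, ∃ x : V, L i = X x * L j))) ∧ ∀ q ∈ M, ∃ i < l, L i = q := by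
    clear h1
    induction h with
    | refl => exact ⟨0, fun _ => 0, 0, fun i hi => absurd hi (by omega), by simp⟩
    | @tail A B _ hAB ih =>
      obtain ⟨l, L, D, hL, hM⟩ := ih
      rcases hAB.1 with h | ⟨q, hB, hq⟩
      · exact ⟨l, L, D, hL, fun q hq => hM q (h hq)⟩
      · have hmem : ∀ r ∈ B, r = q ∨ r ∈ A := by
          intro r hr
          have : r ∈ (B : Set (MvPolynomial V F)) := hr
          rw [hB] at this
          simpa using this
        refine ⟨l + 1, fun i => if i < l then L i else q, max D q.totalDegree, ?_, ?_⟩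
        · intro i hi
          by_cases hil : i < l
          · obtain ⟨hd, hj⟩ := hL i hil
            simp only [hil, if_true]
            refine ⟨hd.trans (le_max_left _ _), ?_⟩
            rcases hj with hj | hj | ⟨j, hj, k, hk, a, b, e⟩ | ⟨j, hj, x, e⟩
            · exact Or.inl hj
            · exact Or.inr (Or.inl hj)
            · refine Or.inr (Or.inr (Or.inl ⟨j, hj, k, hk, a, b, ?_⟩))
              simp [hj.trans hil, hk.trans hil, e]
            · refine Or.inr (Or.inr (Or.inr ⟨j, hj, x, ?_⟩))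
              simp [hj.trans hil, e]
          · have hi' : i = l := by omega
            subst hi'
            simp only [lt_irrefl, if_false]
            refine ⟨le_max_right _ _, ?_⟩
            rcases hq with hq | hq | ⟨p₁, h₁, p₂, h₂, a, b, e⟩ | ⟨p, hp, x, e⟩
            · exact Or.inl hq
            · exact Or.inr (Or.inl hq)
            · obtain ⟨j, hj, ej⟩ := hM p₁ h₁
              obtain ⟨k, hk, ek⟩ := hM p₂ h₂
              refine Or.inr (Or.inr (Or.inl ⟨j, hj, k, hk, a, b, ?_⟩))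
              simp [hj, hk, ej, ek, e]
            · obtain ⟨j, hj, ej⟩ := hM p hp
              refine Or.inr (Or.inr (Or.inr ⟨j, hj, x, ?_⟩))
              simp [hj, ej, e]
        · intro r hr
          rcases hmem r hr with rfl | h
          · exact ⟨l, by omega, by simp⟩
          · obtain ⟨i, hi, e⟩ := hM r h
            exact ⟨i, by omega, by simp [hi, e]⟩
  obtain ⟨l, L, D, hL, hM⟩ := key
  obtain ⟨i, hi, e⟩ := hM 1 h1
  exact ⟨D, i, L, e, fun j hj => hL j (by omega)⟩

/-- soundness: a set with a refutation has no common zero in the Boolean cube -/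
lemma unsat_of_hasPC {D : ℕ} (h : HasPCRefutation P D) (a : V → F)
    (ha : ∀ x, a x = 0 ∨ a x = 1) : ∃ p ∈ P, eval a p ≠ 0 := by
  by_contra hc
  push Not at hc
  obtain ⟨l, L, h1, hL⟩ := h
  have key : ∀ i ≤ l, eval a (L i) = 0 := by
    intro i
    induction i using Nat.strong_induction_on with
    | _ i ih =>
      intro hi
      rcases (hL i hi).2 with hj | ⟨x, e⟩ | ⟨j, hj, k, hk, u, v, e⟩ | ⟨j, hj, x, e⟩
      · exact hc _ hj
      · rw [e]; rcases ha x with h | h <;> simp [h]
      · rw [e]; simp [ih j hj (by omega), ih k hk (by omega)]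
      · rw [e]; simp [ih j hj (by omega)]
  have := key l le_rfl
  rw [h1] at this
  simp at this

end Pool.Agent.P.MP_a6f615_lc
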