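import Pool.Agent.P.MP_a6f615_lc.Pebble

namespace Pool.Agent.P.MP_a6f615_lc

open MvPolynomial
open Classical

section general

variable {W : Type} {t : ℕ} {F : Type} [Field F] {G : PG W}

noncomputable def conf (F : Type) [Field F] (t : ℕ) (B : Finset W) (S : Finset (W × W)) :
    Finset (MvPolynomial (Var W t) F) :=
  B.image (TT F t) ∪ S.image fun x => Imp F t x.1 x.2

lemma mem_conf {B : Finset W} {S : Finset (W × W)} {q : MvPolynomial (Var W t) F} :
    q ∈ conf F t B S ↔ (∃ v ∈ B, TT F t v = q) ∨ ∃ x ∈ S, Imp F t x.1 x.2 = q := by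
  simp only [conf, Finset.mem_union, Finset.mem_image]

lemma TT_mem {B : Finset W} {S : Finset (W × W)} {v : W} (h : v ∈ B) :
    TT F t v ∈ conf F t B S := mem_conf.2 (Or.inl ⟨v, h, rfl⟩)

lemma Imp_mem {B : Finset W} {S : Finset (W × W)} {w b : W} (h : (w, b) ∈ S) :
    Imp F t w b ∈ conf F t B S := mem_conf.2 (Or.inr ⟨(w, b), h, rfl⟩)

lemma cost_conf (B : Finset W) (S : Finset (W × W)) :
    cost (conf F t B S) ≤ B.card + 2 * S.card := by
  unfold cost conf
  rw [← Finset.union_sdiff_self_eq_union, Finset.sum_union Finset.disjoint_sdiff]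
  refine Nat.add_le_add ?_ ?_
  · refine (Finset.sum_le_card_nsmul _ _ 1 fun q hq => ?_).trans ?_
    · obtain ⟨v, _, rfl⟩ := Finset.mem_image.1 hq
      exact sz_TT v
    · simpa using Finset.card_image_le
  · refine (Finset.sum_le_card_nsmul _ _ 2 fun q hq => ?_).trans ?_
    · obtain ⟨v, _, rfl⟩ := Finset.mem_image.1 (Finset.mem_sdiff.1 hq).1
      exact sz_Imp _ _
    · have h1 : ((S.image fun x => Imp F t x.1 x.2) \ B.image (TT F t)).card ≤ S.card :=
        (Finset.card_le_card Finset.sdiff_subset).trans Finset.card_image_le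
      simp only [smul_eq_mul]
      omega

def RS (F : Type) [Field F] (G : PG W) (t s : ℕ) (B : Finset W) (S : Finset (W × W)) : Prop :=
  Reach (PP F G t) s ∅ (conf F t B S)

lemma RS.step {s e : ℕ} {B B' : Finset W} {S S' : Finset (W × W)}
    {q : MvPolynomial (Var W t) F} (h : RS F G t s B S) (hd : Der (PP F G t) (conf F t B S) q e)
    (he : B.card + 2 * S.card + e ≤ s) (hB : ∀ v ∈ B', TT F t v = q ∨ v ∈ B)
    (hS : ∀ x ∈ S', Imp F t x.1 x.2 = q ∨ x ∈ S) (hs : B'.card + 2 * S'.card ≤ s) :
    RS F G t s B' S' := by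
  have c1 := cost_conf (F := F) (t := t) B S
  have c2 := cost_conf (F := F) (t := t) B' S'
  refine (Reach.trans' h (hd.2 s (by omega))).trans' (reach_erase (fun r hr => ?_) (by omega))
  rcases mem_conf.1 hr with ⟨v, hv, rfl⟩ | ⟨x, hx, rfl⟩
  · rcases hB v hv with e | e
    · exact mem_ins.2 (Or.inl e)
    · exact ins_mem (TT_mem e)
  · rcases hS x hx with e | e
    · exact mem_ins.2 (Or.inl e)
    · exact ins_mem (Imp_mem e)

lemma RS.weaken {s : ℕ} {B B' : Finset W} {S S' : Finset (W × W)} (h : RS F G t s B S)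
    (hB : ∀ v ∈ B', v ∈ B) (hS : ∀ x ∈ S', x ∈ S) (hs : B'.card + 2 * S'.card ≤ s) :
    RS F G t s B' S' := by
  have c2 := cost_conf (F := F) (t := t) B' S'
  refine Reach.trans' h (reach_erase (fun r hr => ?_) (by omega))
  rcases mem_conf.1 hr with ⟨v, hv, rfl⟩ | ⟨x, hx, rfl⟩
  · exact TT_mem (hB v hv)
  · exact Imp_mem (hS x hx)

lemma RS.empty (s : ℕ) : RS F G t s ∅ ∅ := by
  have : conf F t (∅ : Finset W) ∅ = ∅ := by simp [conf]
  unfold RS
  rw [this]
  exact Reach.refl' _

end general

variable {N p t : ℕ} {F : Type} [Field F] {lo : ℕ → ℕ} {hlo : ∀ n, 0 < n → lo n < n}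

def pr (N p m : ℕ) : Vx N p × Vx N p := (Cv N p (m - 1) p, Cv N p m p)

lemma add_summary (ht : 0 < t) {s m : ℕ} {B : Finset (Vx N p)} {S : Finset (Vx N p × Vx N p)}
    (hm : m + 1 ≤ N) (hB : ∀ j ≤ p, Ov N p (lo (m + 1)) j ∈ B)
    (h : RS F (FG N p lo hlo) t s B S) (hs : B.card + 2 * S.card + 88 ≤ s) :
    RS F (FG N p lo hlo) t s B (insert (pr N p (m + 1)) S) := by
  have key : ∀ j ≤ p, RS F (FG N p lo hlo) t s B (insert (Cv N p m p, Cv N p (m + 1) j) S) := by
    intro j
    induction j with
    | zero =>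
      intro _
      have d := der_half (F := F) (K := conf F t B S) ht (nsrc_Cv (lo := lo) (hlo := hlo) hm 0)
        (TT_mem (by rw [p2_C hm (Nat.zero_le _)]; exact hB 0 (Nat.zero_le _)))
      rw [p1_C0 hm] at d
      have := Finset.card_insert_le (Cv N p m p, Cv N p (m + 1) 0) S
      refine h.step d (by omega) (fun v hv => Or.inr hv) (fun x hx => ?_) (by omega)
      rcases Finset.mem_insert.1 hx with rfl | hx
      · exact Or.inl rfl
      · exact Or.inr hx
    | succ j ih =>
      intro hj
      have d := der_extend (F := F)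
        (K := conf F t B (insert (Cv N p m p, Cv N p (m + 1) j) S)) (w := Cv N p m p) ht
        (nsrc_Cv (lo := lo) (hlo := hlo) hm (j + 1))
        (Imp_mem (by rw [p1_Cs hm hj]; exact Finset.mem_insert_self _ _))
        (TT_mem (by rw [p2_C hm hj]; exact hB _ hj))
      have := Finset.card_insert_le (Cv N p m p, Cv N p (m + 1) j) S
      have := Finset.card_insert_le (Cv N p m p, Cv N p (m + 1) (j + 1)) S
      refine (ih (by omega)).step d (by omega) (fun v hv => Or.inr hv) (fun x hx => ?_) (by omega)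
      rcases Finset.mem_insert.1 hx with rfl | hx
      · exact Or.inl rfl
      · exact Or.inr (Finset.mem_insert_of_mem hx)
  exact key p le_rfl

lemma add_all (ht : 0 < t) {s n c : ℕ} {B : Finset (Vx N p)} (hB : ∀ j ≤ p, Ov N p n j ∈ B)
    (hs : B.card + 2 * c + 88 ≤ s) (U0 : Finset ℕ)
    (h : RS F (FG N p lo hlo) t s B (U0.image (pr N p))) (U : Finset ℕ)
    (hU : ∀ m ∈ U, 0 < m ∧ m ≤ N ∧ lo m = n) (hc : U0.card + U.card ≤ c) :
    RS F (FG N p lo hlo) t s B ((U0 ∪ U).image (pr N p)) := by
  induction U using Finset.induction_on with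
  | empty => simpa using h
  | insert m U hm ih =>
    rw [Finset.card_insert_of_notMem hm] at hc
    obtain ⟨h1, h2, h3⟩ := hU m (Finset.mem_insert_self _ _)
    obtain ⟨m, rfl⟩ : ∃ m', m = m' + 1 := ⟨m - 1, by omega⟩
    have c1 : ((U0 ∪ U).image (pr N p)).card ≤ U0.card + U.card :=
      Finset.card_image_le.trans (Finset.card_union_le _ _)
    have := add_summary ht h2 (by rw [h3]; exact hB)
      (ih (fun m hm => hU m (Finset.mem_insert_of_mem hm)) (by omega)) (by omega)
    rwa [Finset.union_insert, Finset.image_insert]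

/-- intervals that are open at time `n` -/
def Opn (N : ℕ) (lo : ℕ → ℕ) (n : ℕ) : Finset ℕ :=
  (Finset.range (N + 1)).filter fun m => lo m ≤ n ∧ n < m

def Mix (N p n i : ℕ) : Finset (Vx N p) :=
  (Finset.range (p + 1)).image fun j => if j < i then Ov N p (n + 1) j else Ov N p n j

def Row (N p n : ℕ) : Finset (Vx N p) := (Finset.range (p + 1)).image fun j => Ov N p n j

lemma card_Mix (n i : ℕ) : (Mix N p n i).card ≤ p + 1 := by
  simpa [Mix] using Finset.card_image_le (s := Finset.range (p + 1))
    (f := fun j => if j < i then Ov N p (n + 1) j else Ov N p n j)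

lemma card_Row (n : ℕ) : (Row N p n).card ≤ p + 1 := by
  simpa [Row] using Finset.card_image_le (s := Finset.range (p + 1)) (f := fun j => Ov N p n j)

lemma mem_Row {n j : ℕ} (hj : j ≤ p) : Ov N p n j ∈ Row N p n :=
  Finset.mem_image.2 ⟨j, Finset.mem_range.2 (by omega), rfl⟩

lemma finish (ht : 0 < t) {s n c : ℕ} (hc : (Opn N lo n).card ≤ c) (hs : p + 2 + 2 * c + 88 ≤ s)
    (h : RS F (FG N p lo hlo) t s (insert (Cv N p n p) (Row N p n))
      (((Opn N lo n).filter fun m => lo m < n).image (pr N p))) :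
    RS F (FG N p lo hlo) t s (insert (Cv N p n p) (Row N p n)) ((Opn N lo n).image (pr N p)) := by
  have c1 := Finset.card_insert_le (Cv N p n p) (Row N p n)
  have c2 := card_Row (N := N) (p := p) n
  have := add_all ht (n := n) (c := c) (fun j hj => Finset.mem_insert_of_mem (mem_Row hj))
    (by omega) _ h ((Opn N lo n).filter fun m => ¬ lo m < n) ?_ ?_
  · rwa [Finset.filter_union_filter_not_eq] at this
  · intro m hm
    simp only [Opn, Finset.mem_filter, Finset.mem_range] at hm
    omega
  · rw [Finset.card_filter_add_card_filter_not]; exact hc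

lemma row_update (ht : 0 < t) {s n : ℕ} (hn : n + 1 ≤ N) {S : Finset (Vx N p × Vx N p)}
    (hs : p + 2 + 2 * S.card + 88 ≤ s)
    (h : RS F (FG N p lo hlo) t s (insert (Cv N p (n + 1) p) (Row N p n)) S) :
    RS F (FG N p lo hlo) t s (insert (Cv N p (n + 1) p) (Row N p (n + 1))) S := by
  have key : ∀ i ≤ p + 1,
      RS F (FG N p lo hlo) t s (insert (Cv N p (n + 1) p) (Mix N p n i)) S := by
    intro i
    induction i with
    | zero => intro _; simpa [Mix, Row] using h
    | succ i ih =>
      intro hi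
      have hi' : i ≤ p := by omega
      have d := der_place (F := F) (K := conf F t (insert (Cv N p (n + 1) p) (Mix N p n i)) S) ht
        (nsrc_Ov (lo := lo) (hlo := hlo) hn i)
        (TT_mem (by
          rw [p1_O hn hi']
          exact Finset.mem_insert_of_mem
            (Finset.mem_image.2 ⟨i, Finset.mem_range.2 (by omega), by simp⟩)))
        (TT_mem (by rw [p2_O hn]; exact Finset.mem_insert_self _ _))
      have c1 := Finset.card_insert_le (Cv N p (n + 1) p) (Mix N p n i)
      have c2 := card_Mix (N := N) (p := p) n i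
      have c3 := Finset.card_insert_le (Cv N p (n + 1) p) (Mix N p n (i + 1))
      have c4 := card_Mix (N := N) (p := p) n (i + 1)
      refine (ih (by omega)).step d (by omega) (fun v hv => ?_) (fun x hx => Or.inr hx) (by omega)
      rcases Finset.mem_insert.1 hv with rfl | hv
      · exact Or.inr (Finset.mem_insert_self _ _)
      · obtain ⟨j, hj, rfl⟩ := Finset.mem_image.1 hv
        by_cases h1 : j = i
        · subst h1; left; simp
        · right
          refine Finset.mem_insert_of_mem (Finset.mem_image.2 ⟨j, hj, ?_⟩)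
          by_cases h2 : j < i
          · simp [h2, Nat.lt_succ_of_lt h2]
          · have : ¬ j < i + 1 := by omega
            simp [h2, this]
  have e : Mix N p n (p + 1) = Row N p (n + 1) :=
    Finset.image_congr fun j hj => by
      have : j < p + 1 := by simpa using hj
      simp [this]
  rw [← e]
  exact key _ le_rfl

lemma inv_all (ht : 0 < t) {s c : ℕ} (hc : ∀ n, (Opn N lo n).card ≤ c)
    (hs : p + 2 + 2 * c + 88 ≤ s) : ∀ n ≤ N,
    RS F (FG N p lo hlo) t s (insert (Cv N p n p) (Row N p n)) ((Opn N lo n).image (pr N p)) := by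
  intro n
  induction n with
  | zero =>
    intro _
    refine finish ht (hc 0) hs ?_
    have key : ∀ i ≤ p + 1,
        RS F (FG N p lo hlo) t s ((Finset.range i).image fun j => Ov N p 0 j) ∅ := by
      intro i
      induction i with
      | zero => intro _; simpa using RS.empty s
      | succ i ih =>
        intro hi
        have c1 : ((Finset.range i).image fun j => Ov N p 0 j).card ≤ i := by
          simpa using Finset.card_image_le (s := Finset.range i) (f := fun j => Ov N p 0 j)
        have c2 : ((Finset.range (i + 1)).image fun j => Ov N p 0 j).card ≤ i + 1 := by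
          simpa using Finset.card_image_le (s := Finset.range (i + 1)) (f := fun j => Ov N p 0 j)
        refine (ih (by omega)).step (der_src _ ht (src_Ov i)) (by simp; omega) (fun v hv => ?_)
          (by simp) (by simp; omega)
        obtain ⟨j, hj, rfl⟩ := Finset.mem_image.1 hv
        by_cases h1 : j = i
        · subst h1; exact Or.inl rfl
        · exact Or.inr (Finset.mem_image.2
            ⟨j, Finset.mem_range.2 (by have := Finset.mem_range.1 hj; omega), rfl⟩)
    have c1 := Finset.card_insert_le (Cv N p 0 p) (Row N p 0)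
    have c2 := card_Row (N := N) (p := p) 0
    have c3 : (Row N p 0).card + 2 * (∅ : Finset (Vx N p × Vx N p)).card + 86 ≤ s := by
      simp; omega
    refine (key _ le_rfl).step (der_src _ ht (src_Cv p)) c3 (fun v hv => ?_)
      (by simp) (by simp; omega)
    rcases Finset.mem_insert.1 hv with rfl | hv
    · exact Or.inl rfl
    · exact Or.inr hv
  | succ n ih =>
    intro hn
    refine finish ht (hc _) hs ?_
    have c0 : (((Opn N lo (n + 1)).filter fun m => lo m < n + 1).image (pr N p)).card ≤ c :=
      Finset.card_image_le.trans ((Finset.card_filter_le _ _).trans (hc _))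
    refine row_update ht hn (by omega) ?_
    have c1 := Finset.card_insert_le (Cv N p n p) (Row N p n)
    have c2 := card_Row (N := N) (p := p) n
    have c3 := Finset.card_insert_le (Cv N p (n + 1) p) (Row N p n)
    have c4 : ((Opn N lo n).image (pr N p)).card ≤ c := Finset.card_image_le.trans (hc _)
    have hlo' := hlo (n + 1) (by omega)
    have d := der_mp (F := F) (G := FG N p lo hlo)
      (K := conf F t (insert (Cv N p n p) (Row N p n)) ((Opn N lo n).image (pr N p)))
      (w := Cv N p n p) (b := Cv N p (n + 1) p)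
      (Imp_mem (Finset.mem_image.2 ⟨n + 1, by
        simp only [Opn, Finset.mem_filter, Finset.mem_range]; omega, rfl⟩))
      (TT_mem (Finset.mem_insert_self _ _))
    refine (ih (by omega)).step d (by omega) (fun v hv => ?_) (fun x hx => ?_) (by omega)
    · rcases Finset.mem_insert.1 hv with rfl | hv
      · exact Or.inl rfl
      · exact Or.inr (Finset.mem_insert_of_mem hv)
    · obtain ⟨m, hm, rfl⟩ := Finset.mem_image.1 hx
      refine Or.inr (Finset.mem_image.2 ⟨m, ?_, rfl⟩)
      simp only [Opn, Finset.mem_filter, Finset.mem_range] at hm ⊢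
      omega

theorem small_space (ht : 0 < t) {s c : ℕ} (hc : ∀ n, (Opn N lo n).card ≤ c)
    (hs : p + 2 + 2 * c + 88 ≤ s) :
    ∃ M, Reach (PP F (FG N p lo hlo) t) s ∅ M ∧ (1 : MvPolynomial (Var (Vx N p) t) F) ∈ M := by
  have h := inv_all (F := F) (hlo := hlo) ht hc hs (N - 1) (by omega)
  have h2 : RS F (FG N p lo hlo) t s {Cv N p (N - 1) p} ∅ :=
    h.weaken (by simp) (by simp) (by simp; omega)
  have d := der_final (F := F) (G := FG N p lo hlo) (K := conf F t {Cv N p (N - 1) p} ∅)
    (TT_mem (Finset.mem_singleton_self _))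
  have c := cost_conf (F := F) (t := t) {Cv N p (N - 1) p} ∅
  simp only [Finset.card_singleton, Finset.card_empty] at c
  exact ⟨_, Reach.trans' h2 (d.2 s (by omega)), ins_self _ _⟩

/-! the interval structure -/

def nu (k L n : ℕ) : ℕ := Nat.findGreatest (fun ν => k ^ ν ∣ n) L

def loF (k L n : ℕ) : ℕ := n - k ^ nu k L n

lemma nu_dvd (k L n : ℕ) : k ^ nu k L n ∣ n :=
  Nat.findGreatest_spec (P := fun ν => k ^ ν ∣ n) (Nat.zero_le L) (by simp)

lemma loF_lt {k : ℕ} (hk : 0 < k) (L n : ℕ) (hn : 0 < n) : loF k L n < n := by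
  have := Nat.one_le_pow (nu k L n) k hk
  unfold loF
  omega

lemma loF_eq {k L ν : ℕ} (hν : ν < L) (a i : ℕ) (ha : k ^ (ν + 1) ∣ a) (hi : i + 1 < k) :
    loF k L (a + (i + 1) * k ^ ν) = a + i * k ^ ν := by
  have e : nu k L (a + (i + 1) * k ^ ν) = ν := by
    unfold nu
    rw [Nat.findGreatest_eq_iff]
    refine ⟨hν.le, fun _ => ?_, fun m h1 _ h3 => ?_⟩
    · exact Dvd.dvd.add ((pow_dvd_pow k (Nat.le_succ ν)).trans ha) (Dvd.intro_left _ rfl)
    · have h4 : k ^ (ν + 1) ∣ (i + 1) * k ^ ν :=
        (Nat.dvd_add_right ha).1 ((pow_dvd_pow k h1).trans h3)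
      rw [pow_succ, mul_comm] at h4
      have := Nat.le_of_dvd (by omega)
        (Nat.dvd_of_mul_dvd_mul_right (Nat.one_le_pow ν k (by omega)) h4)
      omega
  unfold loF
  rw [e, add_mul]
  omega

lemma card_Opn {k : ℕ} (hk : 0 < k) (L N n : ℕ) : (Opn N (loF k L) n).card ≤ L + 1 := by
  rw [← Finset.card_range (L + 1)]
  refine Finset.card_le_card_of_injOn (nu k L) (fun m _ => ?_) ?_
  · have : nu k L m ≤ L := Nat.findGreatest_le L
    simpa using Nat.lt_succ_of_le this
  · intro m hm m' hm' e
    simp only [Opn, Finset.coe_filter, Finset.mem_range, Set.mem_ofPred_eq, loF] at hm hm'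
    obtain ⟨a, ha⟩ := nu_dvd k L m
    obtain ⟨b, hb⟩ := nu_dvd k L m'
    rw [← e] at hb hm'
    set h := k ^ nu k L m
    have hpos : 0 < h := Nat.one_le_pow _ _ hk
    rcases lt_trichotomy a b with hab | hab | hab
    · have : h * (a + 1) ≤ h * b := Nat.mul_le_mul_left _ hab
      rw [mul_add] at this
      omega
    · rw [ha, hb, hab]
    · have : h * (b + 1) ≤ h * a := Nat.mul_le_mul_left _ hab
      rw [mul_add] at this
      omega

end Pool.Agent.P.MP_a6f615_lc
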