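import Pool.Agent.P.MP_a6f615_lc.Defs

namespace Pool.Agent.P.MP_a6f615_lc.Up

open MvPolynomial
open Classical

variable {V F : Type} [Field F]

/-- derivability in degree `D` (with the zero polynomial for free) -/
inductive PC (P : Set (MvPolynomial V F)) (D : ℕ) : MvPolynomial V F → Prop
  | zero : PC P D 0
  | ax {p : MvPolynomial V F} : p ∈ P → p.totalDegree ≤ D → PC P D p
  | bool (x : V) : 2 ≤ D → PC P D (X x ^ 2 - X x)
  | lin {p q : MvPolynomial V F} (a b : F) : PC P D p → PC P D q → PC P D (C a * p + C b * q)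
  | mul {p : MvPolynomial V F} (x : V) : PC P D p → (X x * p).totalDegree ≤ D → PC P D (X x * p)

variable {P : Set (MvPolynomial V F)} {D : ℕ}

lemma deg_C_mul (a : F) (p : MvPolynomial V F) : (C a * p).totalDegree ≤ p.totalDegree :=
  (totalDegree_mul _ _).trans (by simp)

lemma deg_bool (x : V) : (X x ^ 2 - X x : MvPolynomial V F).totalDegree ≤ 2 :=
  (totalDegree_sub _ _).trans (by simp [totalDegree_X_pow, totalDegree_X])

lemma PC.deg {q : MvPolynomial V F} (h : PC P D q) : q.totalDegree ≤ D := by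
  induction h with
  | zero => simp
  | ax _ h => exact h
  | bool x h => exact (deg_bool x).trans h
  | lin a b _ _ h1 h2 =>
    exact (totalDegree_add _ _).trans (max_le ((deg_C_mul _ _).trans h1) ((deg_C_mul _ _).trans h2))
  | mul _ _ h _ => exact h

def Valid (P : Set (MvPolynomial V F)) (D l : ℕ) (L : ℕ → MvPolynomial V F) : Prop :=
  ∀ i < l, (L i).totalDegree ≤ D ∧
    (L i ∈ P ∨ (∃ x : V, L i = X x ^ 2 - X x) ∨
      (∃ j < i, ∃ k < i, ∃ a b : F, L i = C a * L j + C b * L k) ∨
      (∃ j < i, ∃ x : V, L i = X x * L j))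

lemma Valid.snoc {l : ℕ} {L : ℕ → MvPolynomial V F} (hL : Valid P D l L) {q : MvPolynomial V F}
    (hd : q.totalDegree ≤ D)
    (hq : q ∈ P ∨ (∃ x : V, q = X x ^ 2 - X x) ∨
      (∃ j < l, ∃ k < l, ∃ a b : F, q = C a * L j + C b * L k) ∨
      (∃ j < l, ∃ x : V, q = X x * L j)) :
    ∃ (l' : ℕ) (L' : ℕ → MvPolynomial V F), Valid P D l' L' ∧ l ≤ l' ∧ (∀ i < l, L' i = L i) ∧
      (q = 0 ∨ ∃ i < l', L' i = q) := by
  refine ⟨l + 1, fun i => if i < l then L i else q, fun i hi => ?_, by omega,
    fun i hi => by simp [hi], Or.inr ⟨l, by omega, by simp⟩⟩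
  by_cases hil : i < l
  · obtain ⟨hd, hj⟩ := hL i hil
    simp only [hil, if_true]
    refine ⟨hd, ?_⟩
    rcases hj with hj | hj | ⟨j, hj, k, hk, a, b, e⟩ | ⟨j, hj, x, e⟩
    · exact Or.inl hj
    · exact Or.inr (Or.inl hj)
    · refine Or.inr (Or.inr (Or.inl ⟨j, hj, k, hk, a, b, ?_⟩))
      simp [hj.trans hil, hk.trans hil, e]
    · refine Or.inr (Or.inr (Or.inr ⟨j, hj, x, ?_⟩))
      simp [hj.trans hil, e]
  · have hi' : i = l := by omega
    subst hi'
    simp only [lt_irrefl, if_false]
    refine ⟨hd, ?_⟩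
    rcases hq with hq | hq | ⟨j, hj, k, hk, a, b, e⟩ | ⟨j, hj, x, e⟩
    · exact Or.inl hq
    · exact Or.inr (Or.inl hq)
    · refine Or.inr (Or.inr (Or.inl ⟨j, hj, k, hk, a, b, ?_⟩))
      simp [hj, hk, e]
    · refine Or.inr (Or.inr (Or.inr ⟨j, hj, x, ?_⟩))
      simp [hj, e]

lemma PC.extend {q : MvPolynomial V F} (h : PC P D q) :
    ∀ (l : ℕ) (L : ℕ → MvPolynomial V F), Valid P D l L →
      ∃ (l' : ℕ) (L' : ℕ → MvPolynomial V F), Valid P D l' L' ∧ l ≤ l' ∧ (∀ i < l, L' i = L i) ∧
        (q = 0 ∨ ∃ i < l', L' i = q) := by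
  induction h with
  | zero => exact fun l L hL => ⟨l, L, hL, le_rfl, fun _ _ => rfl, Or.inl rfl⟩
  | ax hp hd => exact fun l L hL => hL.snoc hd (Or.inl hp)
  | bool x hD => exact fun l L hL => hL.snoc ((deg_bool x).trans hD) (Or.inr (Or.inl ⟨x, rfl⟩))
  | @lin p q a b hp hq ih1 ih2 =>
    intro l L hL
    have hd := (PC.lin a b hp hq).deg
    obtain ⟨l1, L1, v1, le1, e1, m1⟩ := ih1 l L hL
    obtain ⟨l2, L2, v2, le2, e2, m2⟩ := ih2 l1 L1 v1
    have fin : (∃ j < l2, ∃ k < l2, ∃ a' b' : F, C a * p + C b * q = C a' * L2 j + C b' * L2 k) →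
        ∃ (l' : ℕ) (L' : ℕ → MvPolynomial V F), Valid P D l' L' ∧ l ≤ l' ∧
          (∀ i < l, L' i = L i) ∧ (C a * p + C b * q = 0 ∨ ∃ i < l', L' i = C a * p + C b * q) := by
      intro h
      obtain ⟨l3, L3, v3, le3, e3, m3⟩ := v2.snoc hd (Or.inr (Or.inr (Or.inl h)))
      exact ⟨l3, L3, v3, by omega, fun i hi => by
        rw [e3 i (by omega), e2 i (by omega), e1 i hi], m3⟩
    rcases m1 with rfl | ⟨i, hi, ei⟩
    · rcases m2 with rfl | ⟨j, hj, ej⟩
      · exact ⟨l, L, hL, le_rfl, fun _ _ => rfl, Or.inl (by simp)⟩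
      · exact fin ⟨j, hj, j, hj, 0, b, by simp [ej]⟩
    · rcases m2 with rfl | ⟨j, hj, ej⟩
      · exact fin ⟨i, by omega, i, by omega, a, 0, by simp [e2 i hi, ei]⟩
      · exact fin ⟨i, by omega, j, hj, a, b, by rw [e2 i hi, ei, ej]⟩
  | @mul p x hp hd ih =>
    intro l L hL
    obtain ⟨l1, L1, v1, le1, e1, m1⟩ := ih l L hL
    rcases m1 with rfl | ⟨i, hi, ei⟩
    · exact ⟨l, L, hL, le_rfl, fun _ _ => rfl, Or.inl (by simp)⟩
    · obtain ⟨l3, L3, v3, le3, e3, m3⟩ :=
        v1.snoc hd (Or.inr (Or.inr (Or.inr ⟨i, hi, x, by rw [ei]⟩)))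
      exact ⟨l3, L3, v3, by omega, fun i hi => by rw [e3 i (by omega), e1 i hi], m3⟩

lemma hasPC_of_PC (h : PC P D 1) : HasPCRefutation P D := by
  obtain ⟨l, L, v, _, _, m⟩ := h.extend 0 (fun _ => 0) (fun i hi => absurd hi (by omega))
  rcases m with m | ⟨i, hi, e⟩
  · exact absurd m one_ne_zero
  · exact ⟨i, L, e, fun j hj => v j (by omega)⟩

lemma PC.add {p q : MvPolynomial V F} (hp : PC P D p) (hq : PC P D q) : PC P D (p + q) := by
  simpa using PC.lin 1 1 hp hq

lemma PC.sub {p q : MvPolynomial V F} (hp : PC P D p) (hq : PC P D q) : PC P D (p - q) := by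
  simpa [sub_eq_add_neg] using PC.lin 1 (-1) hp hq

lemma PC.cmul {p : MvPolynomial V F} (a : F) (hp : PC P D p) : PC P D (C a * p) := by
  simpa using PC.lin a 0 hp hp

lemma PC.sum {ι : Type} (S : Finset ι) (f : ι → MvPolynomial V F) (h : ∀ i ∈ S, PC P D (f i)) :
    PC P D (∑ i ∈ S, f i) :=
  Finset.sum_induction f (PC P D) (fun _ _ => PC.add) PC.zero h

/-- product of the variables of a multiset -/
noncomputable def XM (F : Type) [Field F] (s : Multiset V) : MvPolynomial V F := (s.map X).prod

lemma XM_cons (x : V) (s : Multiset V) : XM F (x ::ₘ s) = X x * XM F s := by simp [XM]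

lemma deg_XM (s : Multiset V) : (XM F s).totalDegree ≤ s.card := by
  induction s using Multiset.induction_on with
  | empty => simp [XM]
  | cons x s ih =>
    rw [XM_cons, Multiset.card_cons]
    refine (totalDegree_mul _ _).trans ?_
    rw [totalDegree_X]; omega

lemma XM_toMultiset (m : V →₀ ℕ) : XM F (Finsupp.toMultiset m) = monomial m 1 := by
  induction m using Finsupp.induction_linear with
  | zero => simp [XM]
  | add f g hf hg =>
    unfold XM at *
    rw [map_add, Multiset.map_add, Multiset.prod_add, hf, hg, monomial_mul, one_mul]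
  | single a n =>
    unfold XM
    rw [Finsupp.toMultiset_single, Multiset.map_nsmul, Multiset.prod_nsmul]
    simp [X_pow_eq_monomial]

lemma card_toMultiset_le {f : MvPolynomial V F} {m : V →₀ ℕ} (hm : m ∈ f.support) :
    (Finsupp.toMultiset m).card ≤ f.totalDegree := by
  rw [Finsupp.card_toMultiset]
  exact le_totalDegree hm

lemma PC.xm {q : MvPolynomial V F} (hq : PC P D q) (s : Multiset V)
    (h : s.card + q.totalDegree ≤ D) : PC P D (XM F s * q) := by
  induction s using Multiset.induction_on with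
  | empty => simpa [XM] using hq
  | cons x s ih =>
    rw [Multiset.card_cons] at h
    rw [XM_cons, mul_assoc]
    refine PC.mul x (ih (by omega)) ?_
    have h1 := totalDegree_mul (X x) (XM F s * q)
    have h2 := totalDegree_mul (XM F s) q
    have h3 := deg_XM (F := F) s
    rw [totalDegree_X] at h1
    omega

lemma as_sum' (g : MvPolynomial V F) :
    g = ∑ m ∈ g.support, C (coeff m g) * XM F (Finsupp.toMultiset m) := by
  conv_lhs => rw [as_sum g]
  refine Finset.sum_congr rfl fun m _ => ?_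
  rw [XM_toMultiset, C_mul_monomial, mul_one]

lemma PC.mul_left {q : MvPolynomial V F} (hq : PC P D q) (g : MvPolynomial V F)
    (h : g.totalDegree + q.totalDegree ≤ D) : PC P D (g * q) := by
  rw [as_sum' g, Finset.sum_mul]
  refine PC.sum _ _ fun m hm => ?_
  rw [mul_assoc]
  have := card_toMultiset_le hm
  exact PC.cmul _ (hq.xm _ (by omega))

noncomputable def chi (F : Type) [Field F] (A : Finset V) : MvPolynomial V F := ∏ x ∈ A, (1 - X x)

noncomputable def XS (F : Type) [Field F] (S : Finset V) : MvPolynomial V F := ∏ x ∈ S, X x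

lemma deg_one_sub (x : V) : (1 - X x : MvPolynomial V F).totalDegree ≤ 1 :=
  (totalDegree_sub _ _).trans (by simp [totalDegree_X])

lemma deg_chi (A : Finset V) : (chi F A).totalDegree ≤ A.card := by
  unfold chi
  refine (totalDegree_finsetProd _ _).trans ?_
  rw [Finset.card_eq_sum_ones]
  exact Finset.sum_le_sum fun x _ => deg_one_sub x

lemma deg_XS (S : Finset V) : (XS F S).totalDegree ≤ S.card := by
  unfold XS
  refine (totalDegree_finsetProd _ _).trans ?_
  rw [Finset.card_eq_sum_ones]
  exact Finset.sum_le_sum fun x _ => by simp [totalDegree_X]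

lemma PC.bool_mul (x : V) (g : MvPolynomial V F) {e : ℕ} (hg : g.totalDegree ≤ e)
    (h : e + 2 ≤ D) : PC P D (g * (X x ^ 2 - X x)) :=
  (PC.bool x (by omega)).mul_left g (by have := deg_bool (F := F) x; omega)

/-- the reduct of a multilinear monomial: `A` goes to `0`, `U` goes to `1` -/
noncomputable def rho (F : Type) [Field F] (A U S : Finset V) : MvPolynomial V F :=
  if ∃ y ∈ S, y ∈ A then 0 else XS F (S \ U)

lemma deg_rho (A U S : Finset V) : (rho F A U S).totalDegree ≤ S.card := by
  unfold rho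
  split_ifs
  · simp
  · exact (deg_XS _).trans (Finset.card_le_card Finset.sdiff_subset)

variable {A U : Finset V}

lemma rho_step (hU : ∀ x ∈ U, A.card + 1 ≤ D → PC P D ((1 - X x) * chi F A)) (x : V)
    (S : Finset V) {n : ℕ} (hS : S.card ≤ n) (h : A.card + n + 1 ≤ D) :
    PC P D (chi F A * (X x * rho F A U S - rho F A U (insert x S))) := by
  have hc : (S \ U).card ≤ S.card := Finset.card_le_card Finset.sdiff_subset
  have hX := deg_XS (F := F) (S \ U)
  by_cases h1 : ∃ y ∈ S, y ∈ A
  · have h2 : ∃ y ∈ insert x S, y ∈ A := by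
      obtain ⟨y, a, b⟩ := h1
      exact ⟨y, Finset.mem_insert_of_mem a, b⟩
    rw [rho, rho, if_pos h1, if_pos h2]
    simpa using PC.zero
  by_cases hA : x ∈ A
  · have h2 : ∃ y ∈ insert x S, y ∈ A := ⟨x, Finset.mem_insert_self _ _, hA⟩
    rw [rho, rho, if_neg h1, if_pos h2]
    have e : chi F A * (X x * XS F (S \ U) - 0) =
        (-(chi F (A.erase x) * XS F (S \ U))) * (X x ^ 2 - X x) := by
      unfold chi
      rw [← Finset.mul_prod_erase _ _ hA]; ring
    rw [e]
    have d1 := deg_chi (F := F) (A.erase x)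
    have d2 := totalDegree_mul (chi F (A.erase x)) (XS F (S \ U))
    have d3 := Finset.card_erase_add_one hA
    exact PC.bool_mul x _ (e := (A.erase x).card + n) (by rw [totalDegree_neg]; omega) (by omega)
  have h2 : ¬ ∃ y ∈ insert x S, y ∈ A := by
    rintro ⟨y, a, b⟩
    rcases Finset.mem_insert.1 a with rfl | a
    · exact hA b
    · exact h1 ⟨y, a, b⟩
  rw [rho, rho, if_neg h1, if_neg h2]
  by_cases hxU : x ∈ U
  · rw [Finset.insert_sdiff_of_mem _ hxU]
    have e : chi F A * (X x * XS F (S \ U) - XS F (S \ U)) =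
        (-XS F (S \ U)) * ((1 - X x) * chi F A) := by ring
    rw [e]
    refine (hU x hxU (by omega)).mul_left _ ?_
    have d1 := deg_chi (F := F) A
    have d2 := totalDegree_mul (1 - X x) (chi F A)
    have d3 := deg_one_sub (F := F) x
    rw [totalDegree_neg]; omega
  rw [Finset.insert_sdiff_of_notMem _ hxU]
  by_cases hxS : x ∈ S \ U
  · rw [Finset.insert_eq_of_mem hxS]
    have e : chi F A * (X x * XS F (S \ U) - XS F (S \ U)) =
        (chi F A * XS F ((S \ U).erase x)) * (X x ^ 2 - X x) := by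
      unfold XS
      rw [← Finset.mul_prod_erase _ _ hxS]; ring
    rw [e]
    have d1 := deg_chi (F := F) A
    have d2 := totalDegree_mul (chi F A) (XS F ((S \ U).erase x))
    have d3 := Finset.card_erase_add_one hxS
    have d4 := deg_XS (F := F) ((S \ U).erase x)
    exact PC.bool_mul x _ (e := A.card + ((S \ U).erase x).card) (by omega) (by omega)
  · have e : XS F (insert x (S \ U)) = X x * XS F (S \ U) := by
      unfold XS
      rw [Finset.prod_insert hxS]
    rw [e]
    simpa using PC.zero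

lemma rho_mono (hU : ∀ x ∈ U, A.card + 1 ≤ D → PC P D ((1 - X x) * chi F A)) (s : Multiset V)
    (h : A.card + s.card ≤ D) : PC P D (chi F A * (XM F s - rho F A U s.toFinset)) := by
  induction s using Multiset.induction_on with
  | empty => simpa [XM, rho, XS] using PC.zero
  | cons x s ih =>
    rw [Multiset.card_cons] at h
    rw [XM_cons, Multiset.toFinset_cons]
    have e : chi F A * (X x * XM F s - rho F A U (insert x s.toFinset)) =
        X x * (chi F A * (XM F s - rho F A U s.toFinset)) +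
          chi F A * (X x * rho F A U s.toFinset - rho F A U (insert x s.toFinset)) := by ring
    rw [e]
    have c1 : s.toFinset.card ≤ s.card := Multiset.toFinset_card_le s
    refine PC.add (PC.mul x (ih (by omega)) ?_) (rho_step hU x _ c1 (by omega))
    have d1 := totalDegree_mul (X x) (chi F A * (XM F s - rho F A U s.toFinset))
    have d2 := totalDegree_mul (chi F A) (XM F s - rho F A U s.toFinset)
    have d3 := totalDegree_sub (XM F s) (rho F A U s.toFinset)
    have d4 := deg_XM (F := F) s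
    have d5 := deg_rho (F := F) A U s.toFinset
    have d6 := deg_chi (F := F) A
    rw [totalDegree_X] at d1
    omega

lemma moebius (S T : Finset V) :
    ∑ B ∈ T.powerset, ((-1 : F) ^ (T.card + B.card) * if S ⊆ B then 1 else 0) =
      if T = S then 1 else 0 := by
  by_cases h1 : T = S
  · subst h1
    rw [if_pos rfl, Finset.sum_eq_single T]
    · rw [if_pos (Finset.Subset.refl _), mul_one, ← two_mul, pow_mul]; simp
    · intro B hB hne
      rw [if_neg, mul_zero]
      exact fun h => hne (Finset.Subset.antisymm (Finset.mem_powerset.1 hB) h)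
    · intro h; exact absurd (Finset.mem_powerset_self _) h
  rw [if_neg h1]
  by_cases h2 : S ⊆ T
  · obtain ⟨w, hw, hwS⟩ : ∃ w ∈ T, w ∉ S := by
      by_contra hc
      push Not at hc
      exact h1 (Finset.Subset.antisymm hc h2)
    set n := T.card
    rw [← Finset.insert_erase hw, Finset.sum_powerset_insert (Finset.notMem_erase w T),
      ← Finset.sum_add_distrib]
    refine Finset.sum_eq_zero fun B hB => ?_
    have hwB : w ∉ B := fun h => Finset.notMem_erase w T (Finset.mem_powerset.1 hB h)
    have e : S ⊆ insert w B ↔ S ⊆ B := Finset.subset_insert_iff_of_notMem hwS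
    rw [Finset.card_insert_of_notMem hwB]
    simp only [e]
    ring
  · refine Finset.sum_eq_zero fun B hB => ?_
    rw [if_neg, mul_zero]
    exact fun h => h2 (h.trans (Finset.mem_powerset.1 hB))

/-- Boolean points that vanish on `A` and are one on `U` -/
def Cube (F : Type) [Field F] (A U : Finset V) : Set (V → F) :=
  {a | (∀ x, a x = 0 ∨ a x = 1) ∧ (∀ x ∈ A, a x = 0) ∧ ∀ x ∈ U, a x = 1}

noncomputable def pt (F : Type) [Field F] (A U B : Finset V) : V → F :=
  fun x => if x ∈ A then 0 else if x ∈ U ∨ x ∈ B then 1 else 0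

lemma pt_mem (hAU : ∀ x ∈ A, x ∉ U) (B : Finset V) : pt F A U B ∈ Cube F A U := by
  refine ⟨fun x => ?_, fun x hx => by simp [pt, hx], fun x hx => ?_⟩
  · unfold pt; split_ifs <;> simp
  · have : x ∉ A := fun h => hAU x h hx
    simp [pt, this, hx]

lemma eval_XM (a : V → F) (ha : ∀ x, a x = 0 ∨ a x = 1) (s : Multiset V) :
    eval a (XM F s) = if ∀ x ∈ s, a x = 1 then 1 else 0 := by
  induction s using Multiset.induction_on with
  | empty => simp [XM]
  | cons x s ih =>
    rw [XM_cons, map_mul, eval_X, ih]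
    rcases ha x with h | h <;> simp [h]

variable [Fintype V]

lemma rho_eq (s : Multiset V) :
    rho F A U s.toFinset = ∑ T : Finset V,
      C (∑ B ∈ T.powerset, (-1 : F) ^ (T.card + B.card) * eval (pt F A U B) (XM F s)) * XS F T := by
  have hb : ∀ B x, pt F A U B x = 0 ∨ pt F A U B x = 1 := fun B x => by
    unfold pt; split_ifs <;> simp
  unfold rho
  split_ifs with h
  · symm
    refine Finset.sum_eq_zero fun T _ => ?_
    rw [Finset.sum_eq_zero, map_zero, zero_mul]
    intro B _
    rw [eval_XM _ (hb B), if_neg, mul_zero]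
    obtain ⟨y, h1, h2⟩ := h
    intro hc
    have := hc y (Multiset.mem_toFinset.1 h1)
    simp [pt, h2] at this
  · have e : ∀ B : Finset V, eval (pt F A U B) (XM F s) = if s.toFinset \ U ⊆ B then 1 else 0 := by
      intro B
      rw [eval_XM _ (hb B)]
      suffices hh : (∀ x ∈ s, pt F A U B x = 1) ↔ s.toFinset \ U ⊆ B by
        by_cases h1 : s.toFinset \ U ⊆ B
        · rw [if_pos h1, if_pos (hh.2 h1)]
        · rw [if_neg h1, if_neg fun h2 => h1 (hh.1 h2)]
      refine ⟨fun hc x hx => ?_, fun hc x hx => ?_⟩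
      · obtain ⟨h1, h2⟩ := Finset.mem_sdiff.1 hx
        have := hc x (Multiset.mem_toFinset.1 h1)
        by_contra h3
        simp [pt, h2, h3] at this
      · have h1 : x ∉ A := fun h' => h ⟨x, Multiset.mem_toFinset.2 hx, h'⟩
        by_cases h2 : x ∈ U
        · simp [pt, h1, h2]
        · have := hc (Finset.mem_sdiff.2 ⟨Multiset.mem_toFinset.2 hx, h2⟩)
          simp [pt, h1, this]
    simp_rw [e, moebius]
    rw [Finset.sum_eq_single (s.toFinset \ U)]
    · simp
    · intro T _ hT; simp [hT]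
    · intro h; exact absurd (Finset.mem_univ _) h

/-- a polynomial that vanishes on the subcube is derivable after multiplying by `chi A` -/
lemma vanish (hAU : ∀ x ∈ A, x ∉ U)
    (hU : ∀ x ∈ U, A.card + 1 ≤ D → PC P D ((1 - X x) * chi F A)) (f : MvPolynomial V F)
    (hd : A.card + f.totalDegree ≤ D) (hf : ∀ a ∈ Cube F A U, eval a f = 0) :
    PC P D (chi F A * f) := by
  have z : ∑ m ∈ f.support, C (coeff m f) * rho F A U (Finsupp.toMultiset m).toFinset = 0 := by
    simp_rw [rho_eq, Finset.mul_sum]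
    rw [Finset.sum_comm]
    refine Finset.sum_eq_zero fun T _ => ?_
    simp_rw [← mul_assoc, ← map_mul]
    rw [← Finset.sum_mul, ← map_sum]
    simp_rw [Finset.mul_sum]
    rw [Finset.sum_comm, Finset.sum_eq_zero, map_zero, zero_mul]
    intro B _
    have h0 := hf _ (pt_mem hAU B)
    rw [as_sum' f, map_sum] at h0
    simp_rw [map_mul, eval_C] at h0
    simp_rw [mul_left_comm (coeff _ f)]
    rw [← Finset.mul_sum, h0, mul_zero]
  have e : chi F A * f = ∑ m ∈ f.support, C (coeff m f) *
      (chi F A * (XM F (Finsupp.toMultiset m) - rho F A U (Finsupp.toMultiset m).toFinset)) := by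
    simp_rw [mul_left_comm _ (chi F A), mul_sub]
    rw [Finset.sum_sub_distrib, ← Finset.mul_sum, ← Finset.mul_sum, z, mul_zero, sub_zero,
      ← as_sum' f]
  rw [e]
  refine PC.sum _ _ fun m hm => PC.cmul _ (rho_mono hU _ ?_)
  have := card_toMultiset_le hm
  omega

end Pool.Agent.P.MP_a6f615_lc.Up
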