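import Pool.Agent.P.MP_a6f615_lc.UpDer

namespace Pool.Agent.P.MP_a6f615_lc.Up

open MvPolynomial
open Classical

variable {V F : Type} [Field F] [Fintype V]

/-- sets of variables that can be set to zero without a degree `D` contradiction -/
def Good (P : Set (MvPolynomial V F)) (D : ℕ) (A : Finset V) : Prop :=
  A.card ≤ D ∧ ¬ PC P D (chi F A)

variable {P : Set (MvPolynomial V F)} {D : ℕ}

omit [Fintype V] in
lemma Good.subset {A B : Finset V} (h : Good P D B) (hAB : A ⊆ B) : Good P D A := by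
  refine ⟨(Finset.card_le_card hAB).trans h.1, fun hA => h.2 ?_⟩
  have e : chi F B = chi F (B \ A) * chi F A := (Finset.prod_sdiff hAB).symm
  rw [e]
  refine hA.mul_left _ ?_
  have d1 := deg_chi (F := F) (B \ A)
  have d2 := deg_chi (F := F) A
  have d3 := Finset.card_sdiff_add_card_eq_card hAB
  have := h.1
  omega

/-- variables forced to one -/
noncomputable def Frc (P : Set (MvPolynomial V F)) (D : ℕ) (A : Finset V) : Finset V :=
  Finset.univ.filter fun x => ¬ Good P D (insert x A)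

lemma mem_Frc {A : Finset V} {x : V} : x ∈ Frc P D A ↔ ¬ Good P D (insert x A) := by simp [Frc]

def Cu (P : Set (MvPolynomial V F)) (D : ℕ) (A : Finset V) : Set (V → F) := Cube F A (Frc P D A)

lemma Cu_anti {A B : Finset V} (hAB : A ⊆ B) {a : V → F} (ha : a ∈ Cu P D B) : a ∈ Cu P D A :=
  ⟨ha.1, fun x hx => ha.2.1 x (hAB hx), fun x hx => ha.2.2 x (mem_Frc.2 fun h =>
    mem_Frc.1 hx (h.subset (Finset.insert_subset_insert x hAB)))⟩

lemma Good.disj {A : Finset V} (h : Good P D A) : ∀ x ∈ A, x ∉ Frc P D A := fun x hx hf =>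
  mem_Frc.1 hf (by rwa [Finset.insert_eq_of_mem hx])

lemma Good.nonempty {A : Finset V} (h : Good P D A) : ∃ a, a ∈ Cu P D A := ⟨_, pt_mem h.disj ∅⟩

lemma Good.vanish {A : Finset V} (h : Good P D A) (f : MvPolynomial V F)
    (hd : A.card + f.totalDegree ≤ D) (hf : ∀ a ∈ Cu P D A, eval a f = 0) :
    PC P D (chi F A * f) := by
  refine Up.vanish h.disj (fun x hx hc => ?_) f hd hf
  have hxA : x ∉ A := fun h' => h.disj x h' hx
  by_contra hn
  refine mem_Frc.1 hx ⟨by rw [Finset.card_insert_of_notMem hxA]; exact hc, ?_⟩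
  unfold chi at hn ⊢
  rwa [Finset.prod_insert hxA]

def Tr (P : Set (MvPolynomial V F)) (D : ℕ) (A : Finset V) (M : Finset (MvPolynomial V F)) : Prop :=
  ∀ q ∈ M, ∀ a ∈ Cu P D A, eval a q = 0

def Fa (P : Set (MvPolynomial V F)) (D : ℕ) (A : Finset V) (M : Finset (MvPolynomial V F)) : Prop :=
  ∃ q ∈ M, ∃ c : F, c ≠ 0 ∧ ∀ a ∈ Cu P D A, eval a q = c

lemma Tr.mono {A B : Finset V} {M : Finset (MvPolynomial V F)} (h : Tr P D A M) (hAB : A ⊆ B) :
    Tr P D B M := fun q hq a ha => h q hq a (Cu_anti hAB ha)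

lemma Fa.mono {A B : Finset V} {M : Finset (MvPolynomial V F)} (h : Fa P D A M) (hAB : A ⊆ B) :
    Fa P D B M := by
  obtain ⟨q, hq, c, hc, h⟩ := h
  exact ⟨q, hq, c, hc, fun a ha => h a (Cu_anti hAB ha)⟩

noncomputable def mons (M : Finset (MvPolynomial V F)) : Finset (V →₀ ℕ) :=
  M.biUnion fun q => q.support

omit [Fintype V] in
lemma monSpace_eq (M : Finset (MvPolynomial V F)) : monSpace M = (mons M).card := by
  unfold monSpace mons
  have : (⋃ q ∈ M, (q.support : Set (V →₀ ℕ))) =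
      ((M.biUnion fun q => q.support : Finset _) : Set _) := by
    ext m; simp
  rw [this, Set.ncard_coe_finset]

/-- monomials in memory that are set to zero -/
noncomputable def Zs (A : Finset V) (M : Finset (MvPolynomial V F)) : Finset (V →₀ ℕ) :=
  (mons M).filter fun m => ∃ x ∈ m.support, x ∈ A

omit [Fintype V] in
lemma Zs_mono {A B : Finset V} (h : A ⊆ B) (M : Finset (MvPolynomial V F)) : Zs A M ⊆ Zs B M := by
  intro m hm
  obtain ⟨h1, x, h2, h3⟩ := Finset.mem_filter.1 hm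
  exact Finset.mem_filter.2 ⟨h1, x, h2, h h3⟩

omit [Fintype V] in
lemma pick (G : Finset V) (M : Finset (MvPolynomial V F)) {n : ℕ} (h : n ≤ (Zs G M).card) :
    ∃ δ ⊆ G, δ.card ≤ n ∧ n ≤ (Zs δ M).card := by
  obtain ⟨N, hN, hc⟩ := Finset.exists_subset_card_eq h
  have : ∀ m : N, ∃ x ∈ m.1.support, x ∈ G := fun m => (Finset.mem_filter.1 (hN m.2)).2
  choose f hf hG using this
  refine ⟨Finset.univ.image f, fun x hx => ?_, ?_, ?_⟩
  · obtain ⟨m, _, rfl⟩ := Finset.mem_image.1 hx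
    exact hG m
  · exact Finset.card_image_le.trans (by simp [hc])
  · rw [← hc]
    refine Finset.card_le_card fun m hm => Finset.mem_filter.2
      ⟨(Finset.mem_filter.1 (hN hm)).1, f ⟨m, hm⟩, hf _, Finset.mem_image.2 ⟨_, by simp, rfl⟩⟩

lemma const_on {A : Finset V} {q : MvPolynomial V F}
    (h : ∀ m ∈ q.support, (∃ x ∈ m.support, x ∈ A) ∨ ∀ x ∈ m.support, x ∈ Frc P D A)
    {a : V → F} (ha : a ∈ Cu P D A) :
    eval a q = ∑ m ∈ q.support, coeff m q * if ∃ x ∈ m.support, x ∈ A then 0 else 1 := by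
  rw [eval_eq]
  refine Finset.sum_congr rfl fun m hm => ?_
  congr 1
  split_ifs with h1
  · obtain ⟨x, h2, h3⟩ := h1
    exact Finset.prod_eq_zero h2 (by
      rw [ha.2.1 x h3]; exact zero_pow (Finsupp.mem_support_iff.1 h2))
  · exact Finset.prod_eq_one fun x hx => by
      rw [ha.2.2 x ((h m hm).resolve_left h1 x hx), one_pow]

/-- an assignment that zeroes the largest possible number of monomials decides the memory -/
lemma decide {A : Finset V} {M : Finset (MvPolynomial V F)}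
    (h : ∀ x, Good P D (insert x A) → (Zs (insert x A) M).card ≤ (Zs A M).card) :
    Tr P D A M ∨ Fa P D A M := by
  have fix : ∀ q ∈ M, ∀ m ∈ q.support,
      (∃ x ∈ m.support, x ∈ A) ∨ ∀ x ∈ m.support, x ∈ Frc P D A := by
    intro q hq m hm
    by_contra hc
    rw [not_or] at hc
    obtain ⟨h1, h2⟩ := hc
    push Not at h2
    obtain ⟨x, hx, hf⟩ := h2
    have hg : Good P D (insert x A) := by
      by_contra hg; exact hf (mem_Frc.2 hg)
    have hlt : Zs A M ⊂ Zs (insert x A) M := by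
      refine Finset.ssubset_iff_of_subset (Zs_mono (Finset.subset_insert _ _) M) |>.2
        ⟨m, Finset.mem_filter.2 ⟨Finset.mem_biUnion.2 ⟨q, hq, hm⟩, x, hx,
          Finset.mem_insert_self _ _⟩, fun hz => h1 (Finset.mem_filter.1 hz).2⟩
    exact absurd (Finset.card_lt_card hlt) (not_lt.2 (h x hg))
  by_cases hT : Tr P D A M
  · exact Or.inl hT
  · right
    unfold Tr at hT
    push Not at hT
    obtain ⟨q, hq, a, ha, hne⟩ := hT
    refine ⟨q, hq, eval a q, hne, fun b hb => ?_⟩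
    rw [const_on (fix q hq) ha, const_on (fix q hq) hb]

variable {M : ℕ → Finset (MvPolynomial V F)}

lemma decide_max {α γ : Finset V} {m l : ℕ} (hm : m ≤ (Zs γ (M l)).card)
    (inv : ∀ γ, α ⊆ γ → Good P D γ → (Zs γ (M l)).card ≤ m) :
    ∃ δ ⊆ γ, δ.card ≤ m ∧ (Tr P D (α ∪ δ) (M l) ∨ Fa P D (α ∪ δ) (M l)) := by
  obtain ⟨δ, d1, d2, d3⟩ := pick γ (M l) hm
  refine ⟨δ, d1, d2, decide fun x hx => ?_⟩
  have e1 := inv _ (Finset.subset_union_left.trans (Finset.subset_insert x _)) hx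
  have e2 := Finset.card_le_card (Zs_mono (Finset.subset_union_right (s₁ := α) (s₂ := δ)) (M l))
  omega

/-- one end of the interval is forced by `α`, the other one by `α ∪ β` -/
def Ends (P : Set (MvPolynomial V F)) (D : ℕ) (M : ℕ → Finset (MvPolynomial V F))
    (α β : Finset V) (i j : ℕ) : Prop :=
  (Tr P D (α ∪ β) (M i) ∧ Fa P D α (M j)) ∨ (Tr P D α (M i) ∧ Fa P D (α ∪ β) (M j))

lemma level {α β : Finset V} {m i j : ℕ} (hij : i < j) (hG : Good P D (α ∪ β))
    (hE : Ends P D M α β i j) (hβ : β.card ≤ m + 1)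
    (inv : ∀ l, i < l → l < j → ∀ γ, α ⊆ γ → Good P D γ → (Zs γ (M l)).card ≤ m) :
    ∃ (a b : ℕ) (A δ : Finset V), a < b ∧ b ≤ j ∧ Good P D (A ∪ δ) ∧ Ends P D M A δ a b ∧
      A.card ≤ α.card + m + 1 ∧ δ.card ≤ m ∧
      ∀ l, a < l → l < b → ∀ γ, A ⊆ γ → Good P D γ → (Zs γ (M l)).card < m := by
  rcases hE with ⟨hT, hF⟩ | ⟨hT, hF⟩
  · let Q : ℕ → Prop := fun l =>
      i ≤ l ∧ ∃ δ : Finset V, δ.card ≤ m + 1 ∧ Good P D (α ∪ δ) ∧ Tr P D (α ∪ δ) (M l)
    have qa : Q (Nat.findGreatest Q (j - 1)) :=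
      Nat.findGreatest_spec (m := i) (by omega) ⟨le_rfl, β, hβ, hG, hT⟩
    have ha : Nat.findGreatest Q (j - 1) ≤ j - 1 := Nat.findGreatest_le _
    have mx : ∀ l, Nat.findGreatest Q (j - 1) < l → l ≤ j - 1 → ¬ Q l := fun l a b =>
      Nat.findGreatest_is_greatest a b
    set a := Nat.findGreatest Q (j - 1)
    obtain ⟨hia, βa, c1, g1, t1⟩ := qa
    have cA := Finset.card_union_le α βa
    have hex : ∃ l, a < l ∧
        (l = j ∨ ∃ γ, α ∪ βa ⊆ γ ∧ Good P D γ ∧ m ≤ (Zs γ (M l)).card) := ⟨j, by omega, Or.inl rfl⟩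
    have hb : Nat.find hex ≤ j := Nat.find_min' hex ⟨by omega, Or.inl rfl⟩
    have mn : ∀ l, a < l → l < Nat.find hex → ∀ γ, α ∪ βa ⊆ γ → Good P D γ →
        (Zs γ (M l)).card < m := fun l h1 h2 γ h3 h4 => by
      by_contra hc
      exact Nat.find_min hex h2 ⟨h1, Or.inr ⟨γ, h3, h4, not_lt.1 hc⟩⟩
    obtain ⟨hab, hb'⟩ := Nat.find_spec hex
    set b := Nat.find hex
    by_cases hbj : b = j
    · refine ⟨a, b, α ∪ βa, ∅, hab, hb, by simpa using g1, Or.inr ⟨t1, ?_⟩, by omega, by simp, mn⟩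
      rw [hbj, Finset.union_empty]
      exact hF.mono Finset.subset_union_left
    · obtain ⟨γ, h3, h4, h5⟩ := hb'.resolve_left hbj
      obtain ⟨δ, d1, d2, d3⟩ := decide_max h5 (inv b (by omega) (by omega))
      have sα : α ⊆ γ := Finset.subset_union_left.trans h3
      rcases d3 with h | h
      · exact absurd ⟨by omega, δ, by omega, h4.subset (Finset.union_subset sα d1), h⟩
          (mx b hab (by omega))
      · exact ⟨a, b, α ∪ βa, δ, hab, hb, h4.subset (Finset.union_subset h3 d1),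
          Or.inr ⟨t1, h.mono (Finset.union_subset_union_left Finset.subset_union_left)⟩,
          by omega, d2, mn⟩
  · have hex : ∃ l, i < l ∧
        ∃ δ : Finset V, δ.card ≤ m + 1 ∧ Good P D (α ∪ δ) ∧ Fa P D (α ∪ δ) (M l) :=
      ⟨j, hij, β, hβ, hG, hF⟩
    have hb : Nat.find hex ≤ j := Nat.find_min' hex ⟨hij, β, hβ, hG, hF⟩
    have mn := fun l (h : l < Nat.find hex) => Nat.find_min hex h
    obtain ⟨hib, βb, c1, g1, f1⟩ := Nat.find_spec hex
    set b := Nat.find hex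
    have cA := Finset.card_union_le α βb
    let R : ℕ → Prop := fun l =>
      i ≤ l ∧ (l = i ∨ ∃ γ, α ∪ βb ⊆ γ ∧ Good P D γ ∧ m ≤ (Zs γ (M l)).card)
    have qa : R (Nat.findGreatest R (b - 1)) :=
      Nat.findGreatest_spec (m := i) (by omega) ⟨le_rfl, Or.inl rfl⟩
    have ha : Nat.findGreatest R (b - 1) ≤ b - 1 := Nat.findGreatest_le _
    have mx : ∀ l, Nat.findGreatest R (b - 1) < l → l ≤ b - 1 → ¬ R l := fun l a b =>
      Nat.findGreatest_is_greatest a b
    set a := Nat.findGreatest R (b - 1)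
    obtain ⟨hia, ha'⟩ := qa
    have mx' : ∀ l, a < l → l < b → ∀ γ, α ∪ βb ⊆ γ → Good P D γ →
        (Zs γ (M l)).card < m := fun l h1 h2 γ h3 h4 => by
      by_contra hc
      exact mx l h1 (by omega) ⟨by omega, Or.inr ⟨γ, h3, h4, not_lt.1 hc⟩⟩
    by_cases hai : a = i
    · refine ⟨a, b, α ∪ βb, ∅, by omega, hb, by simpa using g1, Or.inl ⟨?_, f1⟩, by omega,
        by simp, mx'⟩
      rw [hai, Finset.union_empty]
      exact hT.mono Finset.subset_union_left
    · obtain ⟨γ, h3, h4, h5⟩ := ha'.resolve_left hai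
      obtain ⟨δ, d1, d2, d3⟩ := decide_max h5 (inv a (by omega) (by omega))
      have sα : α ⊆ γ := Finset.subset_union_left.trans h3
      rcases d3 with h | h
      · exact ⟨a, b, α ∪ βb, δ, by omega, hb, h4.subset (Finset.union_subset h3 d1),
          Or.inl ⟨h.mono (Finset.union_subset_union_left Finset.subset_union_left), f1⟩,
          by omega, d2, mx'⟩
      · exact absurd ⟨by omega, δ, by omega, h4.subset (Finset.union_subset sα d1), h⟩
          (mn a (by omega))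

lemma descend {ℓ e : ℕ}
    (sound : ∀ i < ℓ, ∀ A, Good P D A → A.card + e ≤ D → Tr P D A (M i) → ¬ Fa P D A (M (i + 1))) :
    ∀ (m : ℕ) (α β : Finset V) (i j : ℕ), i < j → j ≤ ℓ → Good P D (α ∪ β) →
      Ends P D M α β i j → β.card ≤ m + 1 →
      (∀ l, i < l → l < j → ∀ γ, α ⊆ γ → Good P D γ → (Zs γ (M l)).card ≤ m) →
      2 * (α.card + e) + (m + 1) * (m + 2) ≤ 2 * D → False := by
  intro m
  induction m with
  | zero =>
    intro α β i j hij hj hG hE hβ inv hD
    obtain ⟨a, b, A, δ, r1, r2, r3, r4, r5, r6, r7⟩ := level hij hG hE hβ inv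
    have hb : b = a + 1 := by
      by_contra hc
      exact absurd (r7 (a + 1) (by omega) (by omega) _ Finset.subset_union_left r3) (by omega)
    subst hb
    have c := Finset.card_union_le A δ
    rcases r4 with ⟨h1, h2⟩ | ⟨h1, h2⟩
    · exact sound a (by omega) _ r3 (by omega) h1 (h2.mono Finset.subset_union_left)
    · exact sound a (by omega) _ r3 (by omega) (h1.mono Finset.subset_union_left) h2
  | succ m ih =>
    intro α β i j hij hj hG hE hβ inv hD
    obtain ⟨a, b, A, δ, r1, r2, r3, r4, r5, r6, r7⟩ := level hij hG hE hβ inv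
    have e1 : (m + 1 + 1) * (m + 1 + 2) = (m + 1) * (m + 2) + 2 * (m + 2) := by ring
    exact ih A δ a b r1 (by omega) r3 r4 r6
      (fun l h1 h2 γ h3 h4 => Nat.le_of_lt_succ (r7 l h1 h2 γ h3 h4)) (by omega)

lemma game {ℓ e s : ℕ} (h0 : M 0 = ∅) (h1 : 1 ∈ M ℓ) (hs : ∀ i ≤ ℓ, monSpace (M i) ≤ s)
    (hD : 2 * e + s * (s + 1) ≤ 2 * D)
    (sound : ∀ i < ℓ, ∀ A, Good P D A → A.card + e ≤ D → Tr P D A (M i) → ¬ Fa P D A (M (i + 1))) :
    PC P D 1 := by
  by_contra hn
  have g0 : Good P D ∅ := ⟨by simp, by simpa [chi] using hn⟩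
  have hF : ∀ A, Fa P D A (M ℓ) := fun A => ⟨1, h1, 1, one_ne_zero, fun a _ => by simp⟩
  have hs1 : 1 ≤ s := by
    refine le_trans ?_ (hs ℓ le_rfl)
    rw [monSpace_eq]
    exact Finset.card_pos.2 ⟨0, Finset.mem_biUnion.2 ⟨1, h1, by simp⟩⟩
  obtain ⟨r, rfl⟩ : ∃ r, s = r + 1 := ⟨s - 1, by omega⟩
  let Q : ℕ → Prop := fun l => l = 0 ∨ ∃ γ, Good P D γ ∧ r + 1 ≤ (Zs γ (M l)).card
  have qa : Q (Nat.findGreatest Q ℓ) := Nat.findGreatest_spec (Nat.zero_le ℓ) (Or.inl rfl)
  have ha : Nat.findGreatest Q ℓ ≤ ℓ := Nat.findGreatest_le ℓ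
  have mx : ∀ l, Nat.findGreatest Q ℓ < l → l ≤ ℓ → ¬ Q l := fun l a b =>
    Nat.findGreatest_is_greatest a b
  set a := Nat.findGreatest Q ℓ
  obtain ⟨δ, d1, d2, d3⟩ : ∃ δ, Good P D δ ∧ δ.card ≤ r + 1 ∧ Tr P D δ (M a) := by
    rcases qa with h | ⟨γ, g1, g2⟩
    · exact ⟨∅, g0, by simp, by rw [h, h0]; intro q hq; simp at hq⟩
    · obtain ⟨δ, e1, e2, e3⟩ := pick γ (M a) g2
      refine ⟨δ, g1.subset e1, e2, fun q hq b hb => ?_⟩
      have hall : Zs δ (M a) = mons (M a) :=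
        Finset.eq_of_subset_of_card_le (Finset.filter_subset _ _)
          (by have := hs a ha; rw [monSpace_eq] at this; omega)
      have hz : ∀ m ∈ q.support, ∃ x ∈ m.support, x ∈ δ := fun m hm => by
        have : m ∈ Zs δ (M a) := by rw [hall]; exact Finset.mem_biUnion.2 ⟨q, hq, hm⟩
        exact (Finset.mem_filter.1 this).2
      rw [const_on (fun m hm => Or.inl (hz m hm)) hb]
      exact Finset.sum_eq_zero fun m hm => by rw [if_pos (hz m hm), mul_zero]
  have hlt : a < ℓ := by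
    refine lt_of_le_of_ne ha fun h => ?_
    obtain ⟨b, hb⟩ := d1.nonempty
    have := d3 1 (by rw [h]; exact h1) b hb
    simp at this
  refine descend sound r ∅ δ a ℓ hlt le_rfl (by simpa using d1)
    (Or.inl ⟨by simpa using d3, hF _⟩) d2 (fun l a1 a2 γ _ hγ => ?_) (by simpa using hD)
  by_contra hc
  exact mx l a1 a2.le (Or.inr ⟨γ, hγ, by omega⟩)

omit [Fintype V] in
lemma eval_zero_of_mem {a : V → F} (ha : ∀ x, a x = 0 ∨ a x = 1) {N : Finset (MvPolynomial V F)}
    (hN : ∀ q ∈ N, eval a q = 0) {q : MvPolynomial V F}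
    (hq : q ∈ Ideal.span (N : Set (MvPolynomial V F)) +
      Ideal.span (Set.range fun x : V => (X x ^ 2 - X x : MvPolynomial V F))) : eval a q = 0 := by
  have : Ideal.span (N : Set (MvPolynomial V F)) +
      Ideal.span (Set.range fun x : V => (X x ^ 2 - X x : MvPolynomial V F)) ≤
      RingHom.ker (eval a) := by
    refine sup_le (Ideal.span_le.2 fun r hr => hN r hr) (Ideal.span_le.2 ?_)
    rintro _ ⟨x, rfl⟩
    change eval a (X x ^ 2 - X x) = 0
    rcases ha x with h | h <;> simp [h]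
  exact this hq

theorem upper (P : Set (MvPolynomial V F)) (d k s ℓ : ℕ) (M : ℕ → Finset (MvPolynomial V F))
    (hk : 1 ≤ k) (hd : ∀ p ∈ P, p.totalDegree ≤ d) (h0 : M 0 = ∅) (h1 : 1 ∈ M ℓ)
    (hs : ∀ i ≤ ℓ, monSpace (M i) ≤ s)
    (hstep : ∀ i < ℓ,
      (∀ q ∈ M (i + 1), q ∈ P ∨ q ∈ Ideal.span (M i : Set (MvPolynomial V F)) +
        Ideal.span (Set.range fun x : V => (X x ^ 2 - X x : MvPolynomial V F))) ∨
      (SemStep P (M i) (M (i + 1)) ∧ ∀ p ∈ P, ∀ a : V → F, (∀ x, a x = 0 ∨ a x = 1) →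
        eval a p = 0 ∨ eval a p ^ k = 1)) :
    HasPCRefutation P (k * d + s * (s + 1) / 2) := by
  have ev := Nat.two_mul_div_two_of_even (Nat.even_mul_succ_self s)
  refine hasPC_of_PC (game (e := k * d) h0 h1 hs (by omega) ?_)
  clear ev
  set D := k * d + s * (s + 1) / 2
  rintro i hi A hA hc hT ⟨q, hq, c, hc0, hF⟩
  have hdk : d ≤ k * d := Nat.le_mul_of_pos_left d hk
  have dA := deg_chi (F := F) A
  rcases hstep i hi with h | ⟨⟨p, hp, h⟩, hv⟩
  · rcases h q hq with hP | hI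
    · have dq := hd q hP
      have d1 : (q - C c).totalDegree ≤ d :=
        (totalDegree_sub _ _).trans (max_le dq (by simp))
      have p1 := hA.vanish (q - C c) (by omega) fun a ha => by simp [hF a ha]
      have p2 := (PC.ax (D := D) hP (by omega)).mul_left (chi F A) (by omega)
      have p3 := PC.cmul c⁻¹ (p2.sub p1)
      have e : C c⁻¹ * (chi F A * q - chi F A * (q - C c)) = chi F A := by
        have : (C c⁻¹ : MvPolynomial V F) * C c = 1 := by
          rw [← map_mul, inv_mul_cancel₀ hc0, map_one]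
        linear_combination (chi F A) * this
      exact hA.2 (e ▸ p3)
    · obtain ⟨a, ha⟩ := hA.nonempty
      exact hc0 ((hF a ha).symm.trans (eval_zero_of_mem ha.1 (fun r hr => hT r hr a ha) hI))
  · have dp := hd p hp
    obtain ⟨k, rfl⟩ : ∃ k', k = k' + 1 := ⟨k - 1, by omega⟩
    have dk : (p ^ k).totalDegree ≤ k * d :=
      (totalDegree_pow _ _).trans (Nat.mul_le_mul_left _ dp)
    have dk1 : (p ^ (k + 1) - 1).totalDegree ≤ (k + 1) * d :=
      (totalDegree_sub _ _).trans (max_le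
        ((totalDegree_pow _ _).trans (Nat.mul_le_mul_left _ dp)) (by simp))
    have p1 := hA.vanish (p ^ (k + 1) - 1) (by omega) fun a ha => by
      rcases hv p hp a ha.1 with h0 | h0
      · exfalso
        obtain ⟨y, hy, z, hz, e⟩ := Submodule.mem_sup.1 (h q hq)
        obtain ⟨g, rfl⟩ := Ideal.mem_span_singleton'.1 hz
        have e1 := eval_zero_of_mem ha.1 (fun r hr => hT r hr a ha) hy
        apply hc0
        rw [← hF a ha, ← e, map_add, map_mul, e1, h0, mul_zero, add_zero]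
      · simp [h0]
    have e2 : (k + 1) * d = k * d + d := by ring
    have d3 := totalDegree_mul (chi F A) (p ^ k)
    have p2 := (PC.ax (D := D) hp (by omega)).mul_left (chi F A * p ^ k) (by omega)
    have e : chi F A * p ^ k * p - chi F A * (p ^ (k + 1) - 1) = chi F A := by ring
    exact hA.2 (e ▸ p2.sub p1)

end Pool.Agent.P.MP_a6f615_lc.Up
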