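import Pool.Agent.P.MP_a6f615_lc.Pebble

namespace Pool.Agent.P.MP_a6f615_lc

open Classical

variable {W : Type} [Fintype W] {S : Type} [Fintype S] {F : Type} [Field F]

/-- integration against a product of block weights -/
noncomputable def LW (u : W → S → F) (f : (W → S) → F) : F := ∑ β : W → S, (∏ v, u v (β v)) * f β

lemma sum_resample (w : W) (s0 : S) (g : (W → S) → F) :
    ∑ β : W → S, g β =
      ∑ β ∈ Finset.univ.filter (fun β : W → S => β w = s0), ∑ σ : S, g (Function.update β w σ) := by
  rw [← Finset.sum_product']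
  symm
  refine Finset.sum_bij' (fun x _ => Function.update x.1 w x.2)
    (fun β _ => (Function.update β w s0, β w)) (fun _ _ => Finset.mem_univ _) ?_ ?_ ?_ ?_
  · intro β _; simp
  · rintro ⟨β, σ⟩ h
    simp only [Finset.mem_product, Finset.mem_filter, Finset.mem_univ, true_and, and_true] at h
    simp [← h]
  · intro β _; simp
  · intro _ _; rfl

lemma LW_block_zero [Nonempty S] (u : W → S → F) (w : W) (f : (W → S) → F)
    (h : ∀ β : W → S, ∑ σ, u w σ * f (Function.update β w σ) = 0) : LW u f = 0 := by
  unfold LW
  rw [sum_resample w (Classical.arbitrary S)]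
  refine Finset.sum_eq_zero fun β _ => ?_
  have : ∀ σ : S, (∏ v, u v (Function.update β w σ v)) * f (Function.update β w σ) =
      (∏ v ∈ Finset.univ.erase w, u v (β v)) * (u w σ * f (Function.update β w σ)) := by
    intro σ
    rw [← Finset.mul_prod_erase _ _ (Finset.mem_univ w), Function.update_self]
    have : ∏ v ∈ Finset.univ.erase w, u v (Function.update β w σ v) =
        ∏ v ∈ Finset.univ.erase w, u v (β v) :=
      Finset.prod_congr rfl fun v hv => by rw [Function.update_of_ne (Finset.ne_of_mem_erase hv)]
    rw [this]; ring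
  simp_rw [this]
  rw [← Finset.mul_sum, h, mul_zero]

lemma LW_update (u : W → S → F) (w : W) (a : S → F) (f : (W → S) → F) :
    LW (Function.update u w a) f =
      ∑ β : W → S, a (β w) * ((∏ v ∈ Finset.univ.erase w, u v (β v)) * f β) := by
  unfold LW
  refine Finset.sum_congr rfl fun β _ => ?_
  rw [← Finset.mul_prod_erase _ _ (Finset.mem_univ w), Function.update_self]
  have : ∏ v ∈ Finset.univ.erase w, Function.update u w a v (β v) =
      ∏ v ∈ Finset.univ.erase w, u v (β v) :=
    Finset.prod_congr rfl fun v hv => by rw [Function.update_of_ne (Finset.ne_of_mem_erase hv)]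
  rw [this]; ring

/-- point mass -/
noncomputable def del (F : Type) [Field F] (τ : S) : S → F := fun σ => if σ = τ then 1 else 0

lemma LW_expand (u : W → S → F) (w : W) (a : S → F) (f : (W → S) → F) :
    LW (Function.update u w a) f = ∑ τ, a τ * LW (Function.update u w (del F τ)) f := by
  simp_rw [LW_update, Finset.mul_sum]
  rw [Finset.sum_comm]
  refine Finset.sum_congr rfl fun β _ => ?_
  simp [del]

lemma LW_indep [Nonempty S] (u : W → S → F) (w : W) (a b : S → F) (f : (W → S) → F)
    (ha : ∑ σ, a σ = 1) (hb : ∑ σ, b σ = 1) (hf : ∀ β σ, f (Function.update β w σ) = f β) :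
    LW (Function.update u w a) f = LW (Function.update u w b) f := by
  have h := LW_block_zero (Function.update u w (a - b)) w f (fun β => by
    simp_rw [hf, Function.update_self, ← Finset.sum_mul]
    simp [Finset.sum_sub_distrib, ha, hb])
  rw [LW_update] at h
  rw [LW_update, LW_update, ← sub_eq_zero, ← Finset.sum_sub_distrib, ← h]
  refine Finset.sum_congr rfl fun β _ => ?_
  simp [sub_mul]

lemma sum_del (τ : S) : ∑ σ, del F τ σ = 1 := by simp [del]

lemma LW_one (u : W → S → F) (h : ∀ v, ∑ σ, u v σ = 1) : LW u 1 = 1 := by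
  unfold LW
  simp only [Pi.one_apply, mul_one]
  have := Finset.prod_univ_sum (fun _ : W => (Finset.univ : Finset S)) u
  rw [Fintype.piFinset_univ] at this
  rw [← this]
  simp [h]

/-- `LW u` as a linear map -/
noncomputable def LWlin (u : W → S → F) : ((W → S) → F) →ₗ[F] F where
  toFun := LW u
  map_add' f g := by simp [LW, mul_add, Finset.sum_add_distrib]
  map_smul' c f := by
    simp only [LW, Pi.smul_apply, smul_eq_mul, RingHom.id_apply, Finset.mul_sum]
    exact Finset.sum_congr rfl fun β _ => by ring

/-! the signed block measure -/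

variable {t : ℕ}

def ff (t : ℕ) : Fin t → Bool := fun _ => false

noncomputable def sgn (F : Type) [Field F] (σ : Fin t → Bool) : F :=
  ∏ l, if σ l = true then -1 else 1

noncomputable def lam (F : Type) [Field F] (σ : Fin t → Bool) : F := del F (ff t) σ - sgn F σ

def flp (σ : Fin t → Bool) (j : Fin t) : Fin t → Bool := Function.update σ j (!σ j)

lemma flp_flp (σ : Fin t → Bool) (j : Fin t) : flp (flp σ j) j = σ := by
  simp [flp]

lemma flp_ne (σ : Fin t → Bool) (j : Fin t) : flp σ j ≠ σ := by
  intro h
  have := congrFun h j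
  simp [flp] at this

lemma sgn_flp (σ : Fin t → Bool) (j : Fin t) : sgn F (flp σ j) = - sgn F σ := by
  unfold sgn
  rw [← Finset.mul_prod_erase _ _ (Finset.mem_univ j),
    ← Finset.mul_prod_erase _ (fun l => if σ l = true then (-1 : F) else 1) (Finset.mem_univ j)]
  have : ∏ l ∈ Finset.univ.erase j, (if flp σ j l = true then (-1 : F) else 1) =
      ∏ l ∈ Finset.univ.erase j, (if σ l = true then (-1 : F) else 1) :=
    Finset.prod_congr rfl fun l hl => by
      rw [flp, Function.update_of_ne (Finset.ne_of_mem_erase hl)]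
  rw [this]
  cases h : σ j <;> simp [flp, h]

lemma sum_sgn_mul (h : (Fin t → Bool) → F) (j : Fin t) (hh : ∀ σ, h (flp σ j) = h σ) :
    ∑ σ, sgn F σ * h σ = 0 :=
  Finset.sum_involution (fun σ _ => flp σ j) (fun σ _ => by rw [sgn_flp, hh]; ring)
    (fun σ _ _ => flp_ne σ j) (fun _ _ => Finset.mem_univ _) (fun σ _ => flp_flp σ j)

lemma sum_lam_mul (h : (Fin t → Bool) → F) (j : Fin t) (hh : ∀ σ, h (flp σ j) = h σ) :
    ∑ σ, lam F σ * h σ = h (ff t) := by
  simp_rw [lam, sub_mul]
  rw [Finset.sum_sub_distrib, sum_sgn_mul h j hh]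
  simp [del]

lemma sum_lam (ht : 0 < t) : ∑ σ : Fin t → Bool, lam F σ = 1 := by
  simpa using sum_lam_mul (F := F) (fun _ => 1) ⟨0, ht⟩ (fun _ => rfl)

lemma lam_ff : lam F (ff t) = 0 := by simp [lam, del, sgn, ff]

/-- block weights of a pebbling with chosen witnesses -/
noncomputable def wt (F : Type) [Field F] (z : W → Option (Fin t → Bool)) :
    W → (Fin t → Bool) → F := fun v => (z v).elim (lam F) (del F)

noncomputable def LL (z : W → Option (Fin t → Bool)) : ((W → Fin t → Bool) → F) →ₗ[F] F :=
  LWlin (wt F z)

lemma LL_apply (z : W → Option (Fin t → Bool)) (f : (W → Fin t → Bool) → F) :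
    LL z f = LW (wt F z) f := rfl

omit [Fintype W] in
lemma wt_update (z : W → Option (Fin t → Bool)) (w : W) (o : Option (Fin t → Bool)) :
    wt F (Function.update z w o) = Function.update (wt F z) w (o.elim (lam F) (del F)) := by
  funext v
  by_cases h : v = w
  · subst h; simp [wt]
  · simp [wt, Function.update_of_ne h]

lemma LL_expand (z : W → Option (Fin t → Bool)) {w : W} (hw : z w = none)
    (f : (W → Fin t → Bool) → F) :
    LL z f = ∑ τ, lam F τ * LL (Function.update z w (some τ)) f := by
  have e : z = Function.update z w none := by rw [← hw]; simp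
  simp_rw [LL_apply, wt_update]
  conv_lhs => rw [e, wt_update]
  exact LW_expand _ _ _ _

lemma LL_indep (ht : 0 < t) (z : W → Option (Fin t → Bool)) (w : W)
    (o o' : Option (Fin t → Bool)) (f : (W → Fin t → Bool) → F)
    (hf : ∀ β σ, f (Function.update β w σ) = f β) :
    LL (Function.update z w o) f = LL (Function.update z w o') f := by
  simp_rw [LL_apply, wt_update]
  refine LW_indep _ _ _ _ _ ?_ ?_ hf
  · cases o
    · exact sum_lam ht
    · exact sum_del _
  · cases o'
    · exact sum_lam ht
    · exact sum_del _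

lemma LL_vanish (z : W → Option (Fin t → Bool)) {w : W} (hw : z w = none) (j : Fin t)
    (f : (W → Fin t → Bool) → F) (hf : ∀ β, f (Function.update β w (flp (β w) j)) = f β)
    (h0 : ∀ β, β w = ff t → f β = 0) : LL z f = 0 := by
  refine LW_block_zero _ w f fun β => ?_
  have e : wt F z w = lam F := by simp [wt, hw]
  rw [e, sum_lam_mul (fun σ => f (Function.update β w σ)) j]
  · exact h0 _ (by simp)
  · intro σ
    simpa using hf (Function.update β w σ)

lemma LL_pinned (z : W → Option (Fin t → Bool)) (h f : (W → Fin t → Bool) → F) (c : F)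
    (hc : ∀ β : W → Fin t → Bool, (∀ v τ, z v = some τ → β v = τ) → h β = c) :
    LL z (h * f) = c * LL z f := by
  simp only [LL_apply, LW, Finset.mul_sum]
  refine Finset.sum_congr rfl fun β _ => ?_
  by_cases hβ : ∀ v τ, z v = some τ → β v = τ
  · rw [Pi.mul_apply, hc β hβ]; ring
  · push Not at hβ
    obtain ⟨v, τ, h1, h2⟩ := hβ
    rw [Finset.prod_eq_zero (Finset.mem_univ v) (by simp [wt, h1, del, h2])]
    simp

lemma LL_zero_of_ff (z : W → Option (Fin t → Bool)) (v : W) (hz : ∀ τ, z v = some τ → τ ≠ ff t)
    (f : (W → Fin t → Bool) → F) (hf : ∀ β, β v ≠ ff t → f β = 0) : LL z f = 0 := by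
  simp only [LL_apply, LW]
  refine Finset.sum_eq_zero fun β _ => ?_
  by_cases hβ : β v = ff t
  · rw [Finset.prod_eq_zero (Finset.mem_univ v), zero_mul]
    cases h : z v with
    | none => simp [wt, h, hβ, lam_ff]
    | some τ => simp [wt, h, hβ, del, (hz τ h).symm]
  · rw [hf β hβ, mul_zero]

lemma LL_none_one (ht : 0 < t) : LL (F := F) (fun _ : W => (none : Option (Fin t → Bool))) 1 = 1 :=
  LW_one _ fun _ => sum_lam ht

lemma LL_expand_all (f : (W → Fin t → Bool) → F) (N : Finset W) :
    ∀ z : W → Option (Fin t → Bool), (∀ w ∈ N, z w = none) →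
      (∀ z' : W → Option (Fin t → Bool), (∀ w ∉ N, z' w = z w) →
        (∀ w ∈ N, ∃ τ, τ ≠ ff t ∧ z' w = some τ) → LL z' f = 0) → LL z f = 0 := by
  induction N using Finset.induction_on with
  | empty => exact fun z _ h => h z (fun _ _ => rfl) (by simp)
  | insert a N ha ih =>
    intro z hz h
    rw [LL_expand z (hz a (Finset.mem_insert_self _ _))]
    refine Finset.sum_eq_zero fun τ _ => ?_
    by_cases hτ : τ = ff t
    · rw [hτ, lam_ff, zero_mul]
    rw [ih (Function.update z a (some τ)), mul_zero]
    · intro w hw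
      rw [Function.update_of_ne (fun e : w = a => ha (e ▸ hw))]
      exact hz w (Finset.mem_insert_of_mem hw)
    · intro z' h1 h2
      refine h z' (fun w hw => ?_) (fun w hw => ?_)
      · rw [Finset.mem_insert, not_or] at hw
        rw [h1 w hw.2, Function.update_of_ne hw.1]
      · rcases Finset.mem_insert.1 hw with rfl | hw
        · exact ⟨τ, hτ, by rw [h1 w ha, Function.update_self]⟩
        · exact h2 w hw

/-- pebbled vertices -/
noncomputable def dom (z : W → Option (Fin t → Bool)) : Finset W :=
  Finset.univ.filter fun v => z v ≠ none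

noncomputable def restr (z : W → Option (Fin t → Bool)) (A : Finset W) :
    W → Option (Fin t → Bool) := fun v => if v ∈ A then z v else none

lemma alt_sum_zero (ht : 0 < t) (z : W → Option (Fin t → Bool)) (B : Finset W) {w : W}
    (hw : w ∈ B) (f : (W → Fin t → Bool) → F) (hf : ∀ β σ, f (Function.update β w σ) = f β) :
    ∑ A ∈ B.powerset, (-1 : F) ^ A.card * LL (restr z A) f = 0 := by
  rw [← Finset.insert_erase hw, Finset.sum_powerset_insert (Finset.notMem_erase w B),
    ← Finset.sum_add_distrib]
  refine Finset.sum_eq_zero fun A hA => ?_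
  have hwA : w ∉ A := fun h => Finset.notMem_erase w B (Finset.mem_powerset.1 hA h)
  have e1 : restr z (insert w A) = Function.update (restr z A) w (z w) := by
    funext v
    by_cases h : v = w
    · subst h; simp [restr]
    · simp [restr, h]
  have e2 : restr z A = Function.update (restr z A) w none := by
    funext v
    by_cases h : v = w
    · subst h; simp [restr, hwA]
    · simp [restr, h]
  rw [Finset.card_insert_of_notMem hwA, e1, LL_indep ht _ w (z w) none f hf, ← e2]
  ring

end Pool.Agent.P.MP_a6f615_lc
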